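import Pool.Agent.H463R2.DU.Model

set_option autoImplicit false

open Finset

namespace Pool.Agent.H463R2.DU

/-- The sign of a list: rows `inl r`, columns `inr s`. -/
def sg {n : ℕ} : Fin n ⊕ Fin n → ℤ
  | Sum.inl _ => 1
  | Sum.inr _ => -1

/-- The tie relation of the data `ty`, `m`, `th`. -/
def TieRel {n K : ℕ} {τ : Type} (ty : Fin K → (Fin n ⊕ Fin n) → τ) (m : Arc n K → ℤ)
    (th : Fin K → Bool) (r s : Fin n) (c d : Fin K) : Prop :=
  th c = false ∧ th d = true ∧ ty c (Sum.inl r) = ty c (Sum.inr s) ∧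
    ty d (Sum.inl r) = ty d (Sum.inr s) ∧
    m (Sum.inl r, c) + m (Sum.inr s, c) = m (Sum.inl r, d) + m (Sum.inr s, d)

/-- A configuration: types `ty`, an integral main part `m` (at most `b` in absolute value) and a
colouring `th` of the middle vertices. -/
structure Conf (n K : ℕ) (b : ℤ) where
  τ : Type
  ty : Fin K → (Fin n ⊕ Fin n) → τ
  m : Arc n K → ℤ
  th : Fin K → Bool
  hm : ∀ v, |m v| ≤ b
  c1 : ∀ (g h : Fin n ⊕ Fin n) (c d : Fin K), g ≠ h → sg g = sg h → th c ≠ th d →
    ty c g = ty c h → ty d g = ty d h → m (g, c) - m (g, d) ≠ m (h, c) - m (h, d)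
  c2 : ∀ (r s : Fin n) (c d : Fin K), TieRel ty m th r s c d → ∀ c' : Fin K, c' ≠ c → c' ≠ d →
    m (Sum.inl r, c) + m (Sum.inr s, c) + 1 ≤ m (Sum.inl r, c') + m (Sum.inr s, c')

variable {n K : ℕ} {b : ℤ}

/-- A quadruple source, sink, two middle vertices. -/
abbrev Quad (n K : ℕ) : Type := (Fin n × Fin n) × (Fin K × Fin K)

/-- The ties of a configuration. -/
def Conf.Tie (C : Conf n K b) (e : Quad n K) : Prop :=
  TieRel C.ty C.m C.th e.1.1 e.1.2 e.2.1 e.2.2

open Classical in
/-- The finite set of ties. -/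
noncomputable def Conf.ties (C : Conf n K b) : Finset (Quad n K) := univ.filter C.Tie

/-- The generic parameters. -/
abbrev Par (n K : ℕ) : Type := (Fin n ⊕ Fin n) ⊕ ((Fin K × (Fin n ⊕ Fin n)) ⊕ Unit)

open Classical in
/-- The derivative of the base point with respect to a parameter. -/
noncomputable def Conf.basis (C : Conf n K b) : Par n K → Arc n K → ℤ
  | Sum.inl g, v => if v.1 = g then 1 else 0
  | Sum.inr (Sum.inl (c, h)), v => if v.2 = c ∧ C.ty v.2 v.1 = C.ty v.2 h then sg v.1 else 0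
  | Sum.inr (Sum.inr _), v => C.m v

/-- The coefficients of the comparison of the two paths of a quadruple. -/
def dco (e : Quad n K) (v : Arc n K) : ℤ :=
  if v = (Sum.inl e.1.1, e.2.1) ∨ v = (Sum.inr e.1.2, e.2.1) then 1
  else if v = (Sum.inl e.1.1, e.2.2) ∨ v = (Sum.inr e.1.2, e.2.2) then -1 else 0

/-- The base point, with constants `A`, `T` and generic parameters `y`. -/
noncomputable def Conf.x0 (C : Conf n K b) (A T : ℤ) (y : Par n K → ℤ) (v : Arc n K) : ℤ :=
  A + T * C.m v + ∑ p, y p * C.basis p v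

end Pool.Agent.H463R2.DU
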