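import Pool.Agent.H463R2.DU.Conf

set_option autoImplicit false

open Finset

namespace Pool.Agent.H463R2.DU

namespace TaskU6

/-- dot product -/
def dot {d : ℕ} (a b : Fin d → ℤ) : ℤ := ∑ i, a i * b i

lemma dot_add {d : ℕ} (a b c : Fin d → ℤ) : dot a (b + c) = dot a b + dot a c := by
  unfold dot
  rw [← sum_add_distrib]
  exact sum_congr rfl fun i _ => by simp only [Pi.add_apply]; ring

lemma dot_sub_self {d : ℕ} (a b : Fin d → ℤ) :
    dot (a - b) (a - b) = dot a a - 2 * dot a b + dot b b := by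
  unfold dot
  rw [mul_sum, ← sum_sub_distrib, ← sum_add_distrib]
  exact sum_congr rfl fun i _ => by simp only [Pi.sub_apply]; ring

lemma dot_self_nonneg {d : ℕ} (a : Fin d → ℤ) : 0 ≤ dot a a :=
  sum_nonneg fun i _ => mul_self_nonneg _

lemma dot_self_pos {d : ℕ} {a : Fin d → ℤ} (h : a ≠ 0) : 1 ≤ dot a a := by
  obtain ⟨i, hi⟩ : ∃ i, a i ≠ 0 := by
    by_contra hcon
    push Not at hcon
    exact h (funext hcon)
  have h1 : a i * a i ≤ dot a a := by
    unfold dot
    exact single_le_sum (f := fun i => a i * a i) (fun i _ => mul_self_nonneg _) (mem_univ i)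
  have h2 : 0 < a i * a i := mul_self_pos.2 hi
  omega

/-- the data -/
structure Dat (n K d : ℕ) where
  I : Fin n → ℤ
  x : Fin n → Fin d → ℤ
  y : Fin n → Fin d → ℤ
  z : Fin n → ℤ
  used : Fin K → Bool
  l : Fin K → ℤ
  sd : Fin K → Bool
  v : Fin K → Fin d → ℤ
  inj : ∀ r s, I r = I s → x r = x s → y r = y s → z r = z s → r = s
  cinj : ∀ c c', used c = true → used c' = true → l c = l c' → sd c = sd c' → v c = v c' → c = c'

namespace Dat

variable {n K d : ℕ} (D : Dat n K d)

def w (c : Fin K) (r : Fin n) : Fin d → ℤ := if D.sd c = true then D.y r else D.x r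

def zz (c : Fin K) (r : Fin n) : ℤ := if D.sd c = true then D.z r else 0

def m : Arc n K → ℤ
  | (Sum.inl r, c) => if D.used c = true then
      D.l c ^ 2 - 2 * D.l c * D.I r + dot (D.v c) (D.v c) - 2 * dot (D.v c) (D.w c r) + D.zz c r
      else 1
  | (Sum.inr s, c) => if D.used c = true then
      2 * D.l c * D.I s + 2 * dot (D.v c) (D.w c s) - D.zz c s else 1

def ty (c : Fin K) (g : Fin n ⊕ Fin n) : (ℤ × (Fin d → ℤ)) ⊕ (Fin n ⊕ Fin n) :=
  if D.used c = true then Sum.inl (match g with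
    | Sum.inl r => (D.I r, D.w c r)
    | Sum.inr s => (D.I s + D.l c, D.w c s + D.v c)) else Sum.inr g

def th (c : Fin K) : Bool := if D.used c = true then D.sd c else false

lemma core {c e : Fin K} (h : D.sd c ≠ D.sd e) {r s : Fin n} (hI : D.I r = D.I s)
    (h1 : D.w c r = D.w c s) (h2 : D.w e r = D.w e s)
    (h3 : D.zz c r - D.zz c s = D.zz e r - D.zz e s) : r = s := by
  unfold w at h1 h2
  unfold zz at h3
  rcases hc : D.sd c with _ | _ <;> rcases he : D.sd e with _ | _ <;>
    rw [hc, he] at h <;> simp only [hc, he] at h1 h2 h3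
  · exact absurd rfl h
  · simp at h1 h2 h3
    exact D.inj r s hI h1 h2 (by omega)
  · simp at h1 h2 h3
    exact D.inj r s hI h2 h1 (by omega)
  · exact absurd rfl h

lemma used_of_ty {c : Fin K} {g h : Fin n ⊕ Fin n} (hne : g ≠ h) (hty : D.ty c g = D.ty c h) :
    D.used c = true := by
  by_contra hcon
  unfold ty at hty
  rw [if_neg hcon, if_neg hcon] at hty
  exact hne (Sum.inr_injective hty)

/-- sum of the two arcs through `c` -/
lemma m_sum {r s : Fin n} {c c' : Fin K} (hu : D.used c' = true) (hI : D.I r = D.I s + D.l c)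
    {u : Fin d → ℤ} (hw : D.w c' r = D.w c' s + u) :
    D.m (Sum.inl r, c') + D.m (Sum.inr s, c') =
      (D.l c' - D.l c) ^ 2 - D.l c ^ 2 + dot (D.v c' - u) (D.v c' - u) - dot u u +
        (D.zz c' r - D.zz c' s) := by
  simp only [m]
  rw [if_pos hu, if_pos hu, hI, hw, dot_add, dot_sub_self]
  ring

/-- the configuration -/
def conf (b : ℤ) (hm : ∀ v, |D.m v| ≤ b) : Conf n K b where
  τ := (ℤ × (Fin d → ℤ)) ⊕ (Fin n ⊕ Fin n)
  ty := D.ty
  m := D.m
  th := D.th
  hm := hm
  c1 := by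
    intro g h c e hgh hsg hth h1 h2 h3
    have hc := D.used_of_ty hgh h1
    have he := D.used_of_ty hgh h2
    have hsd : D.sd c ≠ D.sd e := by
      unfold th at hth
      rwa [if_pos hc, if_pos he] at hth
    unfold ty at h1 h2
    rw [if_pos hc, if_pos hc] at h1
    rw [if_pos he, if_pos he] at h2
    have h1' := Sum.inl_injective h1
    have h2' := Sum.inl_injective h2
    rcases g with r | r <;> rcases h with s | s
    · simp only [Prod.mk.injEq] at h1' h2'
      apply hgh
      congr 1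
      apply D.core hsd h1'.1 h1'.2 h2'.2
      simp only [m] at h3
      rw [if_pos hc, if_pos hc, if_pos he, if_pos he, h1'.1, h1'.2, h2'.2] at h3
      linarith
    · simp [sg] at hsg
    · simp [sg] at hsg
    · simp only [Prod.mk.injEq, add_left_inj] at h1' h2'
      apply hgh
      congr 1
      apply D.core hsd h1'.1 h1'.2 h2'.2
      simp only [m] at h3
      rw [if_pos hc, if_pos hc, if_pos he, if_pos he, h1'.1, h1'.2, h2'.2] at h3
      linarith
  c2 := by
    rintro r s c e ⟨hth1, hth2, hty1, hty2, hmm⟩ c' hc1 hc2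
    have hc := D.used_of_ty (by simp) hty1
    have he := D.used_of_ty (by simp) hty2
    have hsc : D.sd c = false := by
      unfold th at hth1
      rwa [if_pos hc] at hth1
    have hse : D.sd e = true := by
      unfold th at hth2
      rwa [if_pos he] at hth2
    unfold ty at hty1 hty2
    rw [if_pos hc, if_pos hc] at hty1
    rw [if_pos he, if_pos he] at hty2
    have h1' := Sum.inl_injective hty1
    have h2' := Sum.inl_injective hty2
    simp only [Prod.mk.injEq] at h1' h2'
    have hl : D.l c = D.l e := by linarith [h1'.1, h2'.1]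
    have hwc : ∀ r, D.w c r = D.x r := by intro r; simp [w, hsc]
    have hwe : ∀ r, D.w e r = D.y r := by intro r; simp [w, hse]
    have hzc : ∀ r, D.zz c r = 0 := by intro r; simp [zz, hsc]
    have hze : ∀ r, D.zz e r = D.z r := by intro r; simp [zz, hse]
    have hxr : D.x r = D.x s + D.v c := by rw [← hwc, ← hwc]; exact h1'.2
    have hyr : D.y r = D.y s + D.v e := by rw [← hwe, ← hwe]; exact h2'.2
    have ec := D.m_sum hc h1'.1 h1'.2
    have ee := D.m_sum (c := c) he h1'.1 h2'.2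
    have hd0 : ∀ a : Fin d → ℤ, dot (a - a) (a - a) = 0 := by
      intro a
      simp [dot]
    rw [hd0, hzc, hzc] at ec
    rw [hd0, hze, hze, hl] at ee
    rw [hl] at ec
    have hz : D.z r - D.z s = dot (D.v e) (D.v e) - dot (D.v c) (D.v c) := by
      rw [ec, ee] at hmm
      linarith
    rw [ec]
    by_cases hu : D.used c' = true
    · rcases hsd : D.sd c' with _ | _
      · have hw' : D.w c' r = D.w c' s + D.v c := by
          simp only [w, hsd]
          simpa using hxr
        have e' := D.m_sum (c := c) hu h1'.1 hw'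
        have hz' : D.zz c' r - D.zz c' s = 0 := by simp [zz, hsd]
        rw [e', hz', ← hl]
        have hne : D.l c' - D.l c ≠ 0 ∨ D.v c' - D.v c ≠ 0 := by
          by_contra hcon
          push Not at hcon
          exact hc1 (D.cinj c' c hu hc (by linarith [hcon.1]) (by rw [hsd, hsc])
            (sub_eq_zero.1 hcon.2))
        have hn := dot_self_nonneg (D.v c' - D.v c)
        rcases hne with h | h
        · have : 1 ≤ (D.l c' - D.l c) ^ 2 := by
            have := pow_pos (abs_pos.2 h) 2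
            rw [sq_abs] at this
            omega
          linarith
        · have := dot_self_pos h
          nlinarith [sq_nonneg (D.l c' - D.l c)]
      · have hw' : D.w c' r = D.w c' s + D.v e := by
          simp only [w, hsd]
          simpa using hyr
        have e' := D.m_sum (c := c) hu h1'.1 hw'
        have hz' : D.zz c' r - D.zz c' s = D.z r - D.z s := by simp [zz, hsd]
        rw [e', hz', hz, hl]
        have hne : D.l c' - D.l e ≠ 0 ∨ D.v c' - D.v e ≠ 0 := by
          by_contra hcon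
          push Not at hcon
          exact hc2 (D.cinj c' e hu he (by linarith [hcon.1]) (by rw [hsd, hse])
            (sub_eq_zero.1 hcon.2))
        have hn := dot_self_nonneg (D.v c' - D.v e)
        rcases hne with h | h
        · have : 1 ≤ (D.l c' - D.l e) ^ 2 := by
            have := pow_pos (abs_pos.2 h) 2
            rw [sq_abs] at this
            omega
          linarith
        · have := dot_self_pos h
          nlinarith [sq_nonneg (D.l c' - D.l e)]
    · simp only [m]
      rw [if_neg hu, if_neg hu]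
      have := dot_self_nonneg (D.v c)
      nlinarith [sq_nonneg (D.l e)]

/-- sufficient condition for a tie -/
lemma tie (b : ℤ) (hm : ∀ v, |D.m v| ≤ b) {r s : Fin n} {c e : Fin K} (hc : D.used c = true)
    (he : D.used e = true) (hsc : D.sd c = false) (hse : D.sd e = true)
    (hI : D.I r = D.I s + D.l c) (hl : D.l c = D.l e) (hx : D.x r = D.x s + D.v c)
    (hy : D.y r = D.y s + D.v e)
    (hz : D.z r - D.z s = dot (D.v e) (D.v e) - dot (D.v c) (D.v c)) :
    (D.conf b hm).Tie ((r, s), (c, e)) := by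
  have hwc : D.w c r = D.w c s + D.v c := by
    simp only [w, hsc]
    simpa using hx
  have hwe : D.w e r = D.w e s + D.v e := by
    simp only [w, hse]
    simpa using hy
  refine ⟨?_, ?_, ?_, ?_, ?_⟩
  · change D.th c = false
    rw [th, if_pos hc, hsc]
  · change D.th e = true
    rw [th, if_pos he, hse]
  · change D.ty c (Sum.inl r) = D.ty c (Sum.inr s)
    unfold ty
    rw [if_pos hc, if_pos hc]
    simp only [hI, hwc]
  · change D.ty e (Sum.inl r) = D.ty e (Sum.inr s)
    unfold ty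
    rw [if_pos he, if_pos he]
    simp only [hI, hwe, hl]
  · change D.m (Sum.inl r, c) + D.m (Sum.inr s, c) = D.m (Sum.inl r, e) + D.m (Sum.inr s, e)
    rw [D.m_sum hc hI hwc, D.m_sum (c := c) he hI hwe]
    have hd0 : ∀ a : Fin d → ℤ, dot (a - a) (a - a) = 0 := by
      intro a
      simp [dot]
    rw [hd0, hd0, hl]
    have hzc : ∀ r, D.zz c r = 0 := by intro r; simp [zz, hsc]
    have hze : ∀ r, D.zz e r = D.z r := by intro r; simp [zz, hse]
    rw [hzc, hzc, hze, hze, hz]
    ring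

end Dat

/-- decoding of natural numbers -/
noncomputable def dec (T : Type) [Fintype T] [Nonempty T] (k : ℕ) : ℕ × T :=
  (k / Fintype.card T, (Fintype.equivFin T).symm ⟨k % Fintype.card T,
    Nat.mod_lt _ Fintype.card_pos⟩)

lemma dec_inj (T : Type) [Fintype T] [Nonempty T] {k k' : ℕ} (h : dec T k = dec T k') : k = k' := by
  unfold dec at h
  rw [Prod.mk.injEq] at h
  have h2 := (Fintype.equivFin T).symm.injective h.2
  rw [Fin.mk.injEq] at h2
  rw [← Nat.div_add_mod k (Fintype.card T), ← Nat.div_add_mod k' (Fintype.card T), h.1, h2]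

lemma dec_surj (T : Type) [Fintype T] [Nonempty T] (q : ℕ) (a : T) :
    ∃ k, dec T k = (q, a) ∧ k < (q + 1) * Fintype.card T := by
  have ha := ((Fintype.equivFin T) a).isLt
  have hpos : 0 < Fintype.card T := Fintype.card_pos
  refine ⟨Fintype.card T * q + (Fintype.equivFin T) a, ?_, by
    rw [add_mul, one_mul, mul_comm]; omega⟩
  unfold dec
  have h1 : (Fintype.card T * q + ((Fintype.equivFin T) a : ℕ)) / Fintype.card T = q := by
    rw [Nat.mul_add_div hpos, Nat.div_eq_of_lt ha, add_zero]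
  have h2 : (Fintype.card T * q + ((Fintype.equivFin T) a : ℕ)) % Fintype.card T =
      (Fintype.equivFin T) a := by
    rw [Nat.mul_add_mod, Nat.mod_eq_of_lt ha]
  rw [h1]
  congr 1
  rw [Equiv.symm_apply_eq]
  exact Fin.ext h2

lemma dec_fst_le (T : Type) [Fintype T] [Nonempty T] (k : ℕ) : (dec T k).1 ≤ k := Nat.div_le_self _ _

section
variable (n K d R K' : ℕ)

abbrev XX (d R : ℕ) := Fin d → Fin (2 * R)
abbrev VV (d R : ℕ) := Fin d → Fin R
abbrev Row (d R : ℕ) := XX d R × XX d R × Fin (4 * d * R ^ 2)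
abbrev Col (d R : ℕ) := Bool × VV d R

/-- the concrete data -/
noncomputable def dat [Nonempty (Row d R)] [Nonempty (Col d R)] : Dat n K d where
  I r := ((dec (Row d R) r).1 : ℤ)
  x r i := (((dec (Row d R) r).2.1 i : ℕ) : ℤ)
  y r i := (((dec (Row d R) r).2.2.1 i : ℕ) : ℤ)
  z r := (((dec (Row d R) r).2.2.2 : ℕ) : ℤ)
  used c := decide ((c : ℕ) < K')
  l c := ((dec (Col d R) c).1 : ℤ)
  sd c := (dec (Col d R) c).2.1
  v c i := (((dec (Col d R) c).2.2 i : ℕ) : ℤ)
  inj := by
    intro r s h1 h2 h3 h4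
    apply Fin.ext
    apply dec_inj (Row d R)
    refine Prod.ext ?_ (Prod.ext ?_ (Prod.ext ?_ ?_))
    · exact_mod_cast h1
    · funext i
      have := congrFun h2 i
      exact Fin.ext (by exact_mod_cast this)
    · funext i
      have := congrFun h3 i
      exact Fin.ext (by exact_mod_cast this)
    · exact Fin.ext (by exact_mod_cast h4)
  cinj := by
    intro c c' _ _ h1 h2 h3
    apply Fin.ext
    apply dec_inj (Col d R)
    refine Prod.ext ?_ (Prod.ext ?_ ?_)
    · exact_mod_cast h1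
    · exact h2
    · funext i
      have := congrFun h3 i
      exact Fin.ext (by exact_mod_cast this)

end

lemma abs_dot_le {d : ℕ} {a b : Fin d → ℤ} {A B : ℤ} (ha : ∀ i, 0 ≤ a i ∧ a i ≤ A)
    (hb : ∀ i, 0 ≤ b i ∧ b i ≤ B) : 0 ≤ dot a b ∧ dot a b ≤ d * (A * B) := by
  unfold dot
  constructor
  · exact sum_nonneg fun i _ => mul_nonneg (ha i).1 (hb i).1
  · calc ∑ i, a i * b i ≤ ∑ _i : Fin d, A * B := by
          apply sum_le_sum
          intro i _
          exact mul_le_mul (ha i).2 (hb i).2 (hb i).1 ((ha i).1.trans (ha i).2)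
      _ = d * (A * B) := by simp

lemma hm_dat (n K d R K' : ℕ) [Nonempty (Row d R)] [Nonempty (Col d R)] (hn : 64 * d * R ^ 2 ≤ n)
    (hKn : K' ≤ n) (h1n : 2 ≤ n) (v : Arc n K) : |(dat n K d R K').m v| ≤ (n : ℤ) ^ 6 := by
  have hn1 : (2 : ℤ) ≤ n := by exact_mod_cast h1n
  have hdR : 64 * (d : ℤ) * (R : ℤ) ^ 2 ≤ n := by exact_mod_cast hn
  have hdR0 : 0 ≤ (d : ℤ) * (R : ℤ) ^ 2 := by positivity
  have h26 : 4 * (n : ℤ) ^ 2 ≤ (n : ℤ) ^ 6 := by
    have h3 : (n : ℤ) ^ 6 = (n : ℤ) ^ 2 * ((n : ℤ) ^ 2) ^ 2 := by ring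
    have h4 : 4 ≤ (n : ℤ) ^ 2 := by nlinarith
    have h5 : 4 ≤ ((n : ℤ) ^ 2) ^ 2 := by nlinarith
    rw [h3]
    nlinarith
  have h1 : (1 : ℤ) ≤ (n : ℤ) ^ 6 := by nlinarith
  obtain ⟨g, c⟩ := v
  set D := dat n K d R K' with hD
  by_cases hu : D.used c = true
  · have hcK : (c : ℕ) < K' := by
      have : decide ((c : ℕ) < K') = true := hu
      exact of_decide_eq_true this
    have hl0 : 0 ≤ D.l c := Int.natCast_nonneg _
    have hl1 : D.l c ≤ n := by
      have h5 := dec_fst_le (Col d R) c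
      have h6 : (dec (Col d R) c).1 ≤ n := by omega
      change ((dec (Col d R) c).1 : ℤ) ≤ n
      exact_mod_cast h6
    have hI : ∀ r, 0 ≤ D.I r ∧ D.I r ≤ n := by
      intro r
      refine ⟨Int.natCast_nonneg _, ?_⟩
      have h5 := dec_fst_le (Row d R) r
      have h6 : (dec (Row d R) r).1 ≤ n := by omega
      change ((dec (Row d R) r).1 : ℤ) ≤ n
      exact_mod_cast h6
    have hv : ∀ i, 0 ≤ D.v c i ∧ D.v c i ≤ R := by
      intro i
      refine ⟨Int.natCast_nonneg _, ?_⟩
      have := ((dec (Col d R) c).2.2 i).isLt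
      change (((dec (Col d R) c).2.2 i : ℕ) : ℤ) ≤ R
      exact_mod_cast this.le
    have hw : ∀ r i, 0 ≤ D.w c r i ∧ D.w c r i ≤ ((2 * R : ℕ) : ℤ) := by
      intro r i
      unfold Dat.w
      split_ifs
      · refine ⟨Int.natCast_nonneg _, ?_⟩
        have := ((dec (Row d R) r).2.2.1 i).isLt
        change (((dec (Row d R) r).2.2.1 i : ℕ) : ℤ) ≤ ((2 * R : ℕ) : ℤ)
        exact_mod_cast this.le
      · refine ⟨Int.natCast_nonneg _, ?_⟩
        have := ((dec (Row d R) r).2.1 i).isLt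
        change (((dec (Row d R) r).2.1 i : ℕ) : ℤ) ≤ ((2 * R : ℕ) : ℤ)
        exact_mod_cast this.le
    have hz : ∀ r, 0 ≤ D.zz c r ∧ D.zz c r ≤ 4 * (d : ℤ) * (R : ℤ) ^ 2 := by
      intro r
      unfold Dat.zz
      split_ifs
      · refine ⟨Int.natCast_nonneg _, ?_⟩
        have := ((dec (Row d R) r).2.2.2).isLt
        change (((dec (Row d R) r).2.2.2 : ℕ) : ℤ) ≤ 4 * (d : ℤ) * (R : ℤ) ^ 2
        exact_mod_cast this.le
      · exact ⟨le_rfl, by positivity⟩
    have hvv := abs_dot_le hv hv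
    have hvw := fun r => abs_dot_le hv (hw r)
    have e1 : (d : ℤ) * ((R : ℤ) * R) = d * (R : ℤ) ^ 2 := by ring
    have e2 : (d : ℤ) * ((R : ℤ) * ((2 * R : ℕ) : ℤ)) = 2 * (d * (R : ℤ) ^ 2) := by push_cast; ring
    rw [e1] at hvv
    simp only [e2] at hvw
    have hll : 0 ≤ D.l c ^ 2 ∧ D.l c ^ 2 ≤ (n : ℤ) ^ 2 := ⟨sq_nonneg _, pow_le_pow_left₀ hl0 hl1 2⟩
    have hlI : ∀ r, 0 ≤ D.l c * D.I r ∧ D.l c * D.I r ≤ (n : ℤ) ^ 2 := by
      intro r
      refine ⟨mul_nonneg hl0 (hI r).1, ?_⟩
      rw [pow_two]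
      exact mul_le_mul hl1 (hI r).2 (hI r).1 (by positivity)
    have hnn : (n : ℤ) ≤ (n : ℤ) ^ 2 := by nlinarith
    rcases g with r | s
    · simp only [Dat.m]
      rw [if_pos hu, abs_le]
      have a1 := hlI r
      have a2 := hvw r
      have a3 := hz r
      have e3 : 2 * D.l c * D.I r = 2 * (D.l c * D.I r) := by ring
      rw [e3]
      constructor <;> nlinarith
    · simp only [Dat.m]
      rw [if_pos hu, abs_le]
      have a1 := hlI s
      have a2 := hvw s
      have a3 := hz s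
      have e3 : 2 * D.l c * D.I s = 2 * (D.l c * D.I s) := by ring
      rw [e3]
      constructor <;> nlinarith
  · rcases g with r | s
    · simp only [Dat.m]
      rw [if_neg hu, abs_one]
      exact h1
    · simp only [Dat.m]
      rw [if_neg hu, abs_one]
      exact h1

/-- the index set of the ties -/
abbrev Idx (d R Q L : ℕ) := Fin Q × (VV d R × VV d R × Fin (2 * d * R ^ 2)) × Fin L × VV d R × VV d R

lemma dot_small {d R : ℕ} (i : VV d R) :
    0 ≤ dot (fun k => ((i k : ℕ) : ℤ)) (fun k => ((i k : ℕ) : ℤ)) ∧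
      dot (fun k => ((i k : ℕ) : ℤ)) (fun k => ((i k : ℕ) : ℤ)) ≤ d * R ^ 2 := by
  have hv : ∀ k, 0 ≤ (fun k => ((i k : ℕ) : ℤ)) k ∧ (fun k => ((i k : ℕ) : ℤ)) k ≤ (R : ℤ) := by
    intro k
    refine ⟨Int.natCast_nonneg _, ?_⟩
    have := (i k).isLt
    change ((i k : ℕ) : ℤ) ≤ R
    exact_mod_cast this.le
  have := abs_dot_le hv hv
  rw [show (d : ℤ) * ((R : ℤ) * R) = d * (R : ℤ) ^ 2 by ring] at this
  exact this

end TaskU6

open TaskU6 in
/-- U6: a configuration with many ties; only the first `K'` middle vertices are used. -/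
theorem U6 {n K : ℕ} (d R K' : ℕ) (hd : 1 ≤ d) (hR : 1 ≤ R) (hK' : 2 * R ^ d ≤ K') (hKK : K' ≤ K)
    (hn : 8 * d * 4 ^ d * K' * R ^ (d + 2) ≤ n) :
    ∃ C : Conf n K ((n : ℤ) ^ 6), n * K' * R ^ d ≤ 4 ^ (d + 2) * C.ties.card := by
  classical
  have : NeZero R := ⟨by omega⟩
  have : NeZero (2 * R) := ⟨by omega⟩
  have : NeZero (4 * d * R ^ 2) := ⟨by positivity⟩
  have : Nonempty (Row d R) := ⟨(fun _ => 0, fun _ => 0, 0)⟩
  have : Nonempty (Col d R) := ⟨(true, fun _ => 0)⟩
  set f := 2 * R ^ d with hf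
  have hf1 : Fintype.card (Col d R) = f := by
    rw [Fintype.card_prod, Fintype.card_bool, Fintype.card_fun, Fintype.card_fin, Fintype.card_fin]
  set N0 := (2 * R) ^ d * ((2 * R) ^ d * (4 * d * R ^ 2)) with hN0
  have hN01 : Fintype.card (Row d R) = N0 := by
    rw [Fintype.card_prod, Fintype.card_prod, Fintype.card_fun, Fintype.card_fin,
      Fintype.card_fin, Fintype.card_fin]
  have hRd : 1 ≤ R ^ d := Nat.one_le_pow _ _ hR
  have hfpos : 0 < f := by omega
  have hN0pos : 0 < N0 := by rw [hN0]; positivity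
  set L := K' / f with hL
  set M := n / N0 with hM
  have hL1 : 1 ≤ L := (Nat.one_le_div_iff hfpos).2 hK'
  have hLf : L * f ≤ K' := Nat.div_mul_le_self _ _
  have hKL : K' < f * (L + 1) := by
    have := Nat.lt_mul_div_succ K' hfpos
    simpa [hL] using this
  have hMn : M * N0 ≤ n := Nat.div_mul_le_self _ _
  have hnM : n < N0 * (M + 1) := by
    have := Nat.lt_mul_div_succ n hN0pos
    simpa [hM] using this
  -- 4 N0 K' <= n f
  have e1 : 4 * N0 * K' = (8 * d * 4 ^ d * K' * R ^ (d + 2)) * f := by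
    rw [hN0, hf, mul_pow, pow_add, show (4 : ℕ) = 2 ^ 2 by norm_num, ← pow_mul]
    ring
  have e2 : 4 * N0 * K' ≤ n * f := by
    rw [e1]
    exact Nat.mul_le_mul_right _ hn
  have e3 : 4 * N0 * L ≤ n := by
    have h1 : 4 * N0 * L * f ≤ n * f := by
      calc 4 * N0 * L * f = 4 * N0 * (L * f) := by ring
        _ ≤ 4 * N0 * K' := Nat.mul_le_mul_left _ hLf
        _ ≤ _ := e2
    exact Nat.le_of_mul_le_mul_right h1 hfpos
  have e4 : 4 * N0 ≤ n := by
    calc 4 * N0 = 4 * N0 * 1 := by ring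
      _ ≤ 4 * N0 * L := Nat.mul_le_mul_left _ hL1
      _ ≤ n := e3
  have hLM : L ≤ M := by
    rw [hM, Nat.le_div_iff_mul_le hN0pos]
    calc L * N0 ≤ 4 * N0 * L := by nlinarith
      _ ≤ n := e3
  have e5 : n ≤ 2 * N0 * (M - L) := by
    zify [hLM]
    zify at hnM e3 e4
    nlinarith
  have e6 : K' ≤ 2 * f * L := by nlinarith
  -- bounds for the configuration
  have hKn : K' ≤ n := by
    refine le_trans ?_ hn
    have : 1 ≤ 8 * d * 4 ^ d * R ^ (d + 2) := Nat.one_le_iff_ne_zero.2 (by positivity)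
    calc K' = K' * 1 := by ring
      _ ≤ K' * (8 * d * 4 ^ d * R ^ (d + 2)) := Nat.mul_le_mul_left _ this
      _ = _ := by ring
  have h64 : 64 * d * R ^ 2 ≤ n := by
    refine le_trans ?_ hn
    have h1 : 4 ≤ 4 ^ d := by
      calc 4 = 4 ^ 1 := by norm_num
        _ ≤ 4 ^ d := Nat.pow_le_pow_right (by norm_num) hd
    have h2 : 2 ≤ K' := by omega
    have h3 : R ^ 2 ≤ R ^ (d + 2) := Nat.pow_le_pow_right hR (by omega)
    calc 64 * d * R ^ 2 = 8 * d * 4 * 2 * R ^ 2 := by ring
      _ ≤ 8 * d * 4 ^ d * K' * R ^ (d + 2) := by gcongr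
  have hn2 : 2 ≤ n := by
    have : 1 ≤ d * R ^ 2 := Nat.one_le_iff_ne_zero.2 (by positivity)
    nlinarith
  set D := dat n K d R K' with hD
  have hm := hm_dat n K d R K' h64 hKn hn2
  refine ⟨D.conf ((n : ℤ) ^ 6) hm, ?_⟩
  -- encoders
  have rowE : ∀ (q : ℕ) (a : Row d R), q < M → ∃ r : Fin n, dec (Row d R) r = (q, a) := by
    intro q a hq
    obtain ⟨k, hk1, hk2⟩ := dec_surj (Row d R) q a
    rw [hN01] at hk2
    have : k < n := by
      calc k < (q + 1) * N0 := hk2
        _ ≤ M * N0 := Nat.mul_le_mul_right _ hq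
        _ ≤ n := hMn
    exact ⟨⟨k, this⟩, hk1⟩
  have colE : ∀ (q : ℕ) (a : Col d R), q < L → ∃ c : Fin K, dec (Col d R) c = (q, a) ∧
      (c : ℕ) < K' := by
    intro q a hq
    obtain ⟨k, hk1, hk2⟩ := dec_surj (Col d R) q a
    rw [hf1] at hk2
    have : k < K' := by
      calc k < (q + 1) * f := hk2
        _ ≤ L * f := Nat.mul_le_mul_right _ hq
        _ ≤ K' := hLf
    exact ⟨⟨k, by omega⟩, hk1, this⟩
  -- the map
  have key : ∀ p : Idx d R (M - L) L, ∃ e : Quad n K, (D.conf ((n : ℤ) ^ 6) hm).Tie e ∧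
      (dec (Row d R) e.1.1).1 = L + p.1 ∧
      (∀ k, ((dec (Row d R) e.1.1).2.1 k : ℕ) = R + p.2.1.1 k) ∧
      (∀ k, ((dec (Row d R) e.1.1).2.2.1 k : ℕ) = R + p.2.1.2.1 k) ∧
      ((dec (Row d R) e.1.1).2.2.2 : ℕ) = d * R ^ 2 + p.2.1.2.2 ∧
      dec (Col d R) e.2.1 = ((p.2.2.1 : ℕ), false, p.2.2.2.1) ∧
      dec (Col d R) e.2.2 = ((p.2.2.1 : ℕ), true, p.2.2.2.2) := by
    rintro ⟨q, ⟨a, b, w⟩, l, i, j⟩
    have hq := q.isLt
    have hl := l.isLt
    have hw := w.isLt
    have hi := dot_small i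
    have hj := dot_small j
    -- row
    obtain ⟨r, hr⟩ := rowE (L + q) (fun k => ⟨R + a k, by have := (a k).isLt; omega⟩,
      fun k => ⟨R + b k, by have := (b k).isLt; omega⟩,
      ⟨d * R ^ 2 + w, by nlinarith⟩) (by omega)
    -- the coordinate z of the column
    set zi : ℤ := dot (fun k => ((i k : ℕ) : ℤ)) (fun k => ((i k : ℕ) : ℤ)) with hzi
    set zj : ℤ := dot (fun k => ((j k : ℕ) : ℤ)) (fun k => ((j k : ℕ) : ℤ)) with hzj
    have hz0 : 0 ≤ ((d * R ^ 2 + w : ℕ) : ℤ) - zj + zi := by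
      push_cast
      nlinarith [Int.natCast_nonneg (w : ℕ)]
    have hz1 : ((d * R ^ 2 + w : ℕ) : ℤ) - zj + zi < ((4 * d * R ^ 2 : ℕ) : ℤ) := by
      have : ((w : ℕ) : ℤ) < ((2 * d * R ^ 2 : ℕ) : ℤ) := by exact_mod_cast hw
      push_cast at this ⊢
      nlinarith
    obtain ⟨zs, hzs⟩ := Int.eq_ofNat_of_zero_le hz0
    have hzs1 : zs < 4 * d * R ^ 2 := by
      rw [hzs] at hz1
      exact_mod_cast hz1
    obtain ⟨s, hs⟩ := rowE (L + q - l) (fun k => ⟨R + a k - i k, by have := (a k).isLt; omega⟩,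
      fun k => ⟨R + b k - j k, by have := (b k).isLt; omega⟩, ⟨zs, hzs1⟩) (by omega)
    obtain ⟨c, hc, hcK⟩ := colE l (false, i) hl
    obtain ⟨e, he, heK⟩ := colE l (true, j) hl
    have hxr : ∀ k, D.x r k = ((R + a k : ℕ) : ℤ) := by
      intro k
      change (((dec (Row d R) r).2.1 k : ℕ) : ℤ) = _
      rw [hr]
    have hyr : ∀ k, D.y r k = ((R + b k : ℕ) : ℤ) := by
      intro k
      change (((dec (Row d R) r).2.2.1 k : ℕ) : ℤ) = _
      rw [hr]
    have hzr : D.z r = ((d * R ^ 2 + w : ℕ) : ℤ) := by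
      change (((dec (Row d R) r).2.2.2 : ℕ) : ℤ) = _
      rw [hr]
    have hIr : D.I r = ((L + q : ℕ) : ℤ) := by
      change ((dec (Row d R) r).1 : ℤ) = _
      rw [hr]
    have hxs : ∀ k, D.x s k = ((R + a k - i k : ℕ) : ℤ) := by
      intro k
      change (((dec (Row d R) s).2.1 k : ℕ) : ℤ) = _
      rw [hs]
    have hys : ∀ k, D.y s k = ((R + b k - j k : ℕ) : ℤ) := by
      intro k
      change (((dec (Row d R) s).2.2.1 k : ℕ) : ℤ) = _
      rw [hs]
    have hzs' : D.z s = (zs : ℤ) := by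
      change (((dec (Row d R) s).2.2.2 : ℕ) : ℤ) = _
      rw [hs]
    have hIs : D.I s = ((L + q - l : ℕ) : ℤ) := by
      change ((dec (Row d R) s).1 : ℤ) = _
      rw [hs]
    have hlc : D.l c = ((l : ℕ) : ℤ) := by
      change ((dec (Col d R) c).1 : ℤ) = _
      rw [hc]
    have hle : D.l e = ((l : ℕ) : ℤ) := by
      change ((dec (Col d R) e).1 : ℤ) = _
      rw [he]
    have hvc : D.v c = fun k => ((i k : ℕ) : ℤ) := by
      funext k
      change (((dec (Col d R) c).2.2 k : ℕ) : ℤ) = _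
      rw [hc]
    have hve : D.v e = fun k => ((j k : ℕ) : ℤ) := by
      funext k
      change (((dec (Col d R) e).2.2 k : ℕ) : ℤ) = _
      rw [he]
    refine ⟨((r, s), (c, e)), ?_, ?_, ?_, ?_, ?_, ?_, ?_⟩
    · apply D.tie ((n : ℤ) ^ 6) hm
      · exact decide_eq_true hcK
      · exact decide_eq_true heK
      · change (dec (Col d R) c).2.1 = false
        rw [hc]
      · change (dec (Col d R) e).2.1 = true
        rw [he]
      · rw [hIr, hIs, hlc]
        have : L + q - l + l = L + q := by omega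
        exact_mod_cast this.symm
      · rw [hlc, hle]
      · funext k
        rw [Pi.add_apply, hxr, hxs, hvc]
        have := (i k).isLt
        have h2 : R + (a k : ℕ) - i k + i k = R + a k := by omega
        change ((R + a k : ℕ) : ℤ) = ((R + a k - i k : ℕ) : ℤ) + ((i k : ℕ) : ℤ)
        rw [← Nat.cast_add, h2]
      · funext k
        rw [Pi.add_apply, hyr, hys, hve]
        have := (j k).isLt
        have h2 : R + (b k : ℕ) - j k + j k = R + b k := by omega
        change ((R + b k : ℕ) : ℤ) = ((R + b k - j k : ℕ) : ℤ) + ((j k : ℕ) : ℤ)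
        rw [← Nat.cast_add, h2]
      · rw [hzr, hzs', hvc, hve, ← hzi, ← hzj]
        have : ((d * R ^ 2 + w : ℕ) : ℤ) - zj + zi = zs := hzs
        linarith
    · change (dec (Row d R) r).1 = _
      rw [hr]
    · intro k
      change ((dec (Row d R) r).2.1 k : ℕ) = _
      rw [hr]
    · intro k
      change ((dec (Row d R) r).2.2.1 k : ℕ) = _
      rw [hr]
    · change ((dec (Row d R) r).2.2.2 : ℕ) = _
      rw [hr]
    · exact hc
    · exact he
  choose F hF1 hF2 hF3 hF4 hF5 hF6 hF7 using key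
  have hFinj : Function.Injective F := by
    intro p p' hpp
    have b1 := hF2 p
    have b2 := hF3 p
    have b3 := hF4 p
    have b4 := hF5 p
    have b5 := hF6 p
    have b6 := hF7 p
    rw [hpp] at b1 b2 b3 b4 b5 b6
    rw [hF2 p'] at b1
    rw [hF5 p'] at b4
    rw [hF6 p'] at b5
    rw [hF7 p'] at b6
    simp only [Prod.mk.injEq] at b5 b6
    refine Prod.ext (Fin.ext (by omega)) (Prod.ext (Prod.ext ?_ (Prod.ext ?_ (Fin.ext (by omega))))
      (Prod.ext (Fin.ext b5.1.symm) (Prod.ext b5.2.2.symm b6.2.2.symm)))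
    · funext k
      have := b2 k
      rw [hF3 p' k] at this
      exact Fin.ext (by omega)
    · funext k
      have := b3 k
      rw [hF4 p' k] at this
      exact Fin.ext (by omega)
  have hcard : Fintype.card (Idx d R (M - L) L) ≤ (D.conf ((n : ℤ) ^ 6) hm).ties.card := by
    rw [← Finset.card_univ, ← Finset.card_image_of_injective univ hFinj]
    apply Finset.card_le_card
    intro e he
    rw [mem_image] at he
    obtain ⟨p, _, rfl⟩ := he
    unfold Conf.ties
    rw [mem_filter]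
    exact ⟨mem_univ _, hF1 p⟩
  have hidx : Fintype.card (Idx d R (M - L) L) =
      (M - L) * (R ^ d * (R ^ d * (2 * d * R ^ 2)) * (L * (R ^ d * R ^ d))) := by
    simp only [Fintype.card_prod, Fintype.card_fun, Fintype.card_fin]
  calc n * K' * R ^ d ≤ (2 * N0 * (M - L)) * (2 * f * L) * R ^ d := by gcongr
    _ = 4 ^ (d + 2) * ((M - L) * (R ^ d * (R ^ d * (2 * d * R ^ 2)) * (L * (R ^ d * R ^ d)))) := by
        rw [hN0, hf, mul_pow, pow_add, show (4 : ℕ) = 2 ^ 2 by norm_num, ← pow_mul]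
        ring
    _ ≤ _ := by
        rw [← hidx]
        exact Nat.mul_le_mul_left _ hcard

end Pool.Agent.H463R2.DU
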