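import Pool.Agent.H463R2.DU.Conf

set_option autoImplicit false

open Finset

namespace Pool.Agent.H463R2.DU

/-! U7: choice of `d`, `R`, `K'` for a given exponent. -/

theorem U7_floor {x : ℝ} (hx : 1 ≤ x) : x / 2 ≤ (⌊x⌋₊ : ℝ) := by
  have h1 := Nat.lt_floor_add_one x
  have h2 : 1 ≤ ⌊x⌋₊ := Nat.le_floor (by exact_mod_cast hx)
  have h3 : (1:ℝ) ≤ (⌊x⌋₊ : ℝ) := by exact_mod_cast h2
  linarith

theorem U7 (ε : ℝ) (hε : 0 < ε) : ∃ d : ℕ, 1 ≤ d ∧ ∃ c : ℝ, 0 < c ∧ ∃ n0 : ℕ, ∀ n K : ℕ,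
    n0 ≤ n → 2 ≤ K → K ≤ n → ∃ R K' : ℕ, 1 ≤ R ∧ 2 * R ^ d ≤ K' ∧ K' ≤ K ∧
      8 * d * 4 ^ d * K' * R ^ (d + 2) ≤ n ∧
      c * ((n : ℝ) * K * (min (K : ℝ) ((n : ℝ) / K)) ^ (1 - ε))
        ≤ ((n * K' * R ^ d : ℕ) : ℝ) / 4 ^ (d + 2) := by
  obtain ⟨d0, hd0⟩ := exists_nat_ge (2 / ε)
  set d : ℕ := d0 + 1 with hd
  have hd1 : 1 ≤ d := by omega
  set C : ℕ := 8 * d * 4 ^ d with hC
  have hC8 : 8 ≤ C := by
    have h1 : 1 ≤ 4 ^ d := Nat.one_le_pow _ _ (by norm_num)
    have h2 : 8 * 1 * 1 ≤ 8 * d * 4 ^ d := Nat.mul_le_mul (Nat.mul_le_mul_left 8 hd1) h1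
    omega
  have hCr : (8:ℝ) ≤ C := by exact_mod_cast hC8
  have hexp : 1 - ε ≤ (d:ℝ) / ((d + 2 : ℕ) : ℝ) := by
    have h1 : (2:ℝ) / ε ≤ ((d + 2 : ℕ) : ℝ) := by
      rw [hd]; push_cast; linarith
    have h2 : (0:ℝ) < ((d + 2 : ℕ) : ℝ) := by positivity
    rw [div_le_iff₀ hε] at h1
    rw [le_div_iff₀ h2]
    push_cast at h1 ⊢
    nlinarith
  set c : ℝ := 1 / (2 * (C:ℝ) ^ 2 * 2 ^ d * 4 ^ (d + 2)) with hc
  have hc0 : 0 < c := by positivity
  refine ⟨d, hd1, c, hc0, 2 * C, fun n K hn hK hKn => ?_⟩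
  have hK0 : (0:ℝ) < K := by exact_mod_cast (by omega : 0 < K)
  have hn0 : (0:ℝ) < n := by exact_mod_cast (by omega : 0 < n)
  have hKn' : (K:ℝ) ≤ n := by exact_mod_cast hKn
  set μ : ℝ := min (K : ℝ) ((n : ℝ) / K) with hμ
  have hμ1 : 1 ≤ μ := by
    rw [hμ, le_min_iff]
    constructor
    · exact_mod_cast (by omega : 1 ≤ K)
    · rw [le_div_iff₀ hK0]; linarith
  have hμ0 : 0 < μ := by linarith
  have hμK : μ ≤ K := min_le_left _ _
  have hμn : μ * K ≤ n := by
    have h1 : μ ≤ (n:ℝ) / K := min_le_right _ _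
    rwa [le_div_iff₀ hK0] at h1
  by_cases hcase : (C:ℝ) ≤ μ
  · -- large
    set x : ℝ := (μ / C) ^ (1 / ((d + 2 : ℕ) : ℝ)) with hx
    have hq1 : 1 ≤ μ / C := by rw [le_div_iff₀ (by linarith)]; linarith
    have hx1 : 1 ≤ x := Real.one_le_rpow hq1 (by positivity)
    have hxp : x ^ (d + 2) = μ / C := by
      rw [hx, one_div]
      exact Real.rpow_inv_natCast_pow (by positivity) (by omega)
    set R : ℕ := ⌊x⌋₊ with hR
    have hR1 : 1 ≤ R := Nat.le_floor (by exact_mod_cast hx1)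
    have hRx : (R:ℝ) ≤ x := Nat.floor_le (by linarith)
    have hRp : (R:ℝ) ^ (d + 2) ≤ μ / C := by
      rw [← hxp]
      exact pow_le_pow_left₀ (by positivity) hRx _
    refine ⟨R, K, hR1, ?_, le_rfl, ?_, ?_⟩
    · have h1 : R ^ d ≤ R ^ (d + 2) := Nat.pow_le_pow_right hR1 (by omega)
      have h2 : (2:ℝ) * (R:ℝ) ^ (d + 2) ≤ K := by
        have h3 : μ / C ≤ μ / 8 := div_le_div_of_nonneg_left hμ0.le (by norm_num) hCr
        linarith
      have h3 : 2 * R ^ (d + 2) ≤ K := by exact_mod_cast h2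
      omega
    · have h1 : (C:ℝ) * K * (R:ℝ) ^ (d + 2) ≤ n := by
        have h2 : (C:ℝ) * K * (R:ℝ) ^ (d + 2) ≤ C * K * (μ / C) :=
          mul_le_mul_of_nonneg_left hRp (by positivity)
        have h3 : (C:ℝ) * K * (μ / C) = μ * K := by
          field_simp
        linarith
      exact_mod_cast h1
    · have h1 : x / 2 ≤ (R:ℝ) := U7_floor hx1
      have h2 : (x / 2) ^ d ≤ (R:ℝ) ^ d := pow_le_pow_left₀ (by positivity) h1 _
      have h3 : (μ ^ (1 - ε)) / C ≤ x ^ d := by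
        have h4 : x ^ d = (μ / C) ^ ((d:ℝ) / ((d + 2 : ℕ) : ℝ)) := by
          rw [hx, ← Real.rpow_natCast, ← Real.rpow_mul (by positivity)]
          congr 1
          ring
        have h5 : (C:ℝ) ^ ((d:ℝ) / ((d + 2 : ℕ) : ℝ)) ≤ C := by
          have h6 : (C:ℝ) ^ ((d:ℝ) / ((d + 2 : ℕ) : ℝ)) ≤ (C:ℝ) ^ (1:ℝ) := by
            refine Real.rpow_le_rpow_of_exponent_le (by linarith) ?_
            rw [div_le_one (by positivity)]
            push_cast
            linarith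
          rwa [Real.rpow_one] at h6
        have h6 : μ ^ (1 - ε) ≤ μ ^ ((d:ℝ) / ((d + 2 : ℕ) : ℝ)) :=
          Real.rpow_le_rpow_of_exponent_le hμ1 hexp
        rw [h4, Real.div_rpow hμ0.le (by linarith)]
        exact div_le_div₀ (by positivity) h6 (Real.rpow_pos_of_pos (by linarith) _) h5
      have h7 : μ ^ (1 - ε) / (C * 2 ^ d) ≤ (R:ℝ) ^ d := by
        refine le_trans ?_ h2
        rw [div_pow]
        have h8 : μ ^ (1 - ε) / (C * 2 ^ d) = (μ ^ (1 - ε) / C) / 2 ^ d := by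
          rw [div_div]
        rw [h8]
        exact div_le_div_of_nonneg_right h3 (by positivity)
      have h9 : c * ((n:ℝ) * K * μ ^ (1 - ε)) ≤
          (n:ℝ) * K * (μ ^ (1 - ε) / (C * 2 ^ d)) / 4 ^ (d + 2) := by
        have h10 : (n:ℝ) * K * (μ ^ (1 - ε) / (C * 2 ^ d)) / 4 ^ (d + 2) =
            (2 * C) * (c * ((n:ℝ) * K * μ ^ (1 - ε))) := by
          rw [hc]
          field_simp
        rw [h10]
        have h11 : 0 ≤ c * ((n:ℝ) * K * μ ^ (1 - ε)) := by positivity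
        nlinarith
      refine le_trans h9 ?_
      push_cast
      refine div_le_div_of_nonneg_right ?_ (by positivity)
      exact mul_le_mul_of_nonneg_left h7 (by positivity)
  · -- small
    rw [not_le] at hcase
    have hdiv : 2 ≤ n / C := (Nat.le_div_iff_mul_le (by omega)).2 hn
    refine ⟨1, min K (n / C), le_rfl, ?_, min_le_left _ _, ?_, ?_⟩
    · rw [one_pow, mul_one]
      exact le_min hK hdiv
    · rw [one_pow, mul_one]
      calc C * min K (n / C) ≤ C * (n / C) := Nat.mul_le_mul_left _ (min_le_right _ _)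
        _ ≤ n := Nat.mul_div_le n C
    · have h1 : (K:ℝ) / (2 * C) ≤ ((min K (n / C) : ℕ) : ℝ) := by
        rw [Nat.cast_min, le_min_iff]
        constructor
        · rw [div_le_iff₀ (by positivity)]
          nlinarith
        · have h2 : (n:ℝ) ≤ 2 * C * ((n / C : ℕ) : ℝ) := by
            have h3 : n < C * (n / C) + C := by
              have h4 := Nat.div_add_mod n C
              have h5 := Nat.mod_lt n (by omega : 0 < C)
              omega
            have h4 : C * 1 ≤ C * (n / C) := Nat.mul_le_mul_left C (by omega)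
            have h5 : n ≤ 2 * C * (n / C) := by
              have h6 : 2 * C * (n / C) = C * (n / C) + C * (n / C) := by ring
              omega
            exact_mod_cast h5
          rw [div_le_iff₀ (by positivity)]
          linarith
      have h2 : μ ^ (1 - ε) ≤ C := by
        have h3 : μ ^ (1 - ε) ≤ μ ^ (1:ℝ) :=
          Real.rpow_le_rpow_of_exponent_le hμ1 (by linarith)
        rw [Real.rpow_one] at h3
        linarith
      rw [one_pow, mul_one]
      push_cast [-Nat.cast_min]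
      have h3 : c * ((n:ℝ) * K * μ ^ (1 - ε)) ≤ c * ((n:ℝ) * K * C) :=
        mul_le_mul_of_nonneg_left (mul_le_mul_of_nonneg_left h2 (by positivity)) hc0.le
      have h4 : c * ((n:ℝ) * K * C) ≤ (n:ℝ) * (K / (2 * C)) / 4 ^ (d + 2) := by
        have h5 : (n:ℝ) * (K / (2 * C)) / 4 ^ (d + 2) = 2 ^ d * (c * ((n:ℝ) * K * C)) := by
          rw [hc]
          field_simp
        rw [h5]
        have h6 : 0 ≤ c * ((n:ℝ) * K * C) := by positivity
        have h7 : (1:ℝ) ≤ 2 ^ d := one_le_pow₀ (by norm_num)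
        nlinarith
      refine le_trans h3 (le_trans h4 ?_)
      refine div_le_div_of_nonneg_right ?_ (by positivity)
      exact mul_le_mul_of_nonneg_left h1 (by positivity)

end Pool.Agent.H463R2.DU
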