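import Pool.Agent.H463R2.DU.Main
import Pool.Agent.H463R2.DU.U6
import Pool.Agent.H463R2.DU.U7

set_option autoImplicit false

open Finset

namespace Pool.Agent.H463R2.DU

variable {n K : ℕ} {b : ℤ}

theorem lin_x0 (C : Conf n K b) (A T : ℤ) (y : Par n K → ℤ) (w : Arc n K → ℝ) :
    lin w (C.x0 A T y) = lin w (C.x0 A T 0) + ∑ p, lin w (C.basis p) * (y p : ℝ) := by
  have h : ∀ v, (C.x0 A T y v : ℝ) = (C.x0 A T 0 v : ℝ) + ∑ p, (y p : ℝ) * (C.basis p v : ℝ) := by
    intro v
    have : C.x0 A T y v = C.x0 A T 0 v + ∑ p, y p * C.basis p v := by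
      unfold Conf.x0
      simp only [Pi.zero_apply, zero_mul, Finset.sum_const_zero, add_zero]
    rw [this]; push_cast; ring
  unfold lin
  calc ∑ v, w v * (C.x0 A T y v : ℝ)
      = ∑ v, (w v * (C.x0 A T 0 v : ℝ) + ∑ p, w v * ((y p : ℝ) * (C.basis p v : ℝ))) := by
        refine Finset.sum_congr rfl fun v _ => ?_
        rw [h v, mul_add, Finset.mul_sum]
    _ = _ := by
        rw [Finset.sum_add_distrib, Finset.sum_comm]
        congr 1
        refine Finset.sum_congr rfl fun p _ => ?_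
        rw [Finset.sum_mul]
        refine Finset.sum_congr rfl fun v _ => ?_
        ring

/-- A test with at most five variables is good, if `M` and `y` are chosen well. -/
theorem good_of (C : Conf n K b) (A T : ℤ) (M : ℕ) (y : Par n K → ℤ) (q : Aff (Arc n K))
    (hq : q.vars.card ≤ 5)
    (hM : ∀ v, q.coef v ≠ 0 → |q.const| < 2 * M * |q.coef v|)
    (hy : (∃ p, lin q.coef (C.basis p) ≠ 0) →
      |q.const| + 4 * M * ∑ v, |q.coef v| < |lin q.coef (C.x0 A T y)|) :
    Good C (C.x0 A T y) M q := by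
  classical
  by_cases h : ∃ p, lin q.coef (C.basis p) ≠ 0
  · exact Or.inr (Or.inr (hy h))
  · push Not at h
    have hcard : (univ.filter (fun v => q.coef v ≠ 0)).card ≤ 5 := by
      refine le_trans (le_of_eq ?_) hq
      unfold Aff.vars
      congr
    rcases U1 C q.coef hcard (fun p => h p) with h1 | ⟨e, he, c, hc, h1⟩
    · exact Or.inl h1
    · refine Or.inr (Or.inl ⟨e, he, c, hc, h1, ?_⟩)
      have h2 := h1 (Sum.inl e.1.1, e.2.1)
      have h3 : (dco e (Sum.inl e.1.1, e.2.1) : ℝ) = 1 := by simp [dco]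
      rw [h3, mul_one] at h2
      have h4 := hM (Sum.inl e.1.1, e.2.1) (by rw [h2]; exact hc)
      rwa [h2] at h4

/-- The tests of a tree. -/
noncomputable def Tree.qs {ι O : Type} : Tree ι O → Set (Aff ι)
  | .leaf _ => ∅
  | .node q l e g => {q} ∪ l.qs ∪ e.qs ∪ g.qs

theorem Tree.all_iff {ι O : Type} (P : Aff ι → Prop) (T : Tree ι O) :
    T.All P ↔ ∀ q ∈ T.qs, P q := by
  induction T with
  | leaf o => simp [Tree.All, Tree.qs]
  | node q l e g hl he hg =>
    simp only [Tree.All, Tree.qs, hl, he, hg]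
    constructor
    · rintro ⟨h1, h2, h3, h4⟩ a ha
      rcases ha with ((ha | ha) | ha) | ha
      · rw [Set.mem_singleton_iff] at ha; rw [ha]; exact h1
      · exact h2 a ha
      · exact h3 a ha
      · exact h4 a ha
    · intro h
      refine ⟨h q ?_, fun a ha => h a ?_, fun a ha => h a ?_, fun a ha => h a ?_⟩
      · left; left; left; rfl
      · left; left; right; exact ha
      · left; right; exact ha
      · right; exact ha

/-- The integer form encoded by a list of pairs. -/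
def phi {ι : Type} [DecidableEq ι] {m : ℕ} (a : Fin m → ι × ℤ) (v : ι) : ℤ :=
  ∑ j, if (a j).1 = v then (a j).2 else 0

theorem phi_rep {ι : Type} [DecidableEq ι] [Fintype ι] (v0 : ι) (H : ℤ) (hH : 0 ≤ H) (m : ℕ) :
    ∀ w : ι → ℤ, (∀ v, |w v| ≤ H) → (univ.filter (fun v => w v ≠ 0)).card ≤ m →
      ∃ a : Fin m → ι × ℤ, (∀ j, |(a j).2| ≤ H) ∧ ∀ v, phi a v = w v := by
  induction m with
  | zero =>
    intro w _ hc
    refine ⟨fun j => j.elim0, fun j => j.elim0, fun v => ?_⟩
    have h : (univ.filter (fun v => w v ≠ 0)) = ∅ := Finset.card_eq_zero.1 (by omega)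
    have := Finset.filter_eq_empty_iff.1 h (mem_univ v)
    simp only [ne_eq, not_not] at this
    simp [phi, this]
  | succ m ih =>
    intro w hw hc
    by_cases h : ∃ v1, w v1 ≠ 0
    · obtain ⟨v1, hv1⟩ := h
      obtain ⟨a, ha1, ha2⟩ := ih (Function.update w v1 0) (fun v => by
        by_cases h2 : v = v1
        · subst h2; simp [hH]
        · rw [Function.update_of_ne h2]; exact hw v) (by
        have : (univ.filter (fun v => Function.update w v1 0 v ≠ 0)) ⊆
            (univ.filter (fun v => w v ≠ 0)).erase v1 := by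
          intro v hv
          have hv' := (mem_filter.1 hv).2
          by_cases h2 : v = v1
          · subst h2; simp at hv'
          · rw [Function.update_of_ne h2] at hv'
            exact mem_erase.2 ⟨h2, mem_filter.2 ⟨mem_univ _, hv'⟩⟩
        have h3 := card_le_card this
        have h4 : v1 ∈ univ.filter (fun v => w v ≠ 0) := mem_filter.2 ⟨mem_univ _, hv1⟩
        rw [card_erase_of_mem h4] at h3
        omega)
      refine ⟨Fin.cons (v1, w v1) a, ?_, ?_⟩
      · intro j
        refine Fin.cases ?_ (fun i => ?_) j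
        · simp only [Fin.cons_zero]; exact hw v1
        · simp only [Fin.cons_succ]; exact ha1 i
      · intro v
        unfold phi
        rw [Fin.sum_univ_succ]
        simp only [Fin.cons_zero, Fin.cons_succ]
        have h4 := ha2 v
        unfold phi at h4
        rw [h4]
        by_cases h2 : v = v1
        · subst h2; simp
        · rw [Function.update_of_ne h2, if_neg (fun h => h2 h.symm), zero_add]
    · push Not at h
      refine ⟨fun _ => (v0, 0), fun j => by simpa using hH, fun v => ?_⟩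
      rw [h v]
      unfold phi
      simp

theorem sum_abs_le (q : Aff (Arc n K)) (H : ℕ) (hq : q.vars.card ≤ 5)
    (hH : ∀ v, |q.coef v| ≤ H) : ∑ v, |q.coef v| ≤ 5 * H := by
  classical
  have h1 : ∑ v, |q.coef v| = ∑ v ∈ q.vars, |q.coef v| := by
    symm
    apply Finset.sum_subset (Finset.subset_univ _)
    intro v _ hv
    unfold Aff.vars at hv
    simp only [mem_filter, mem_univ, true_and, ne_eq, not_not] at hv
    rw [hv, abs_zero]
  rw [h1]
  calc ∑ v ∈ q.vars, |q.coef v| ≤ ∑ v ∈ q.vars, (H : ℝ) := Finset.sum_le_sum fun v _ => hH v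
    _ = q.vars.card * H := by rw [Finset.sum_const, nsmul_eq_mul]
    _ ≤ 5 * H := by
        have : (q.vars.card : ℝ) ≤ 5 := by exact_mod_cast hq
        exact mul_le_mul_of_nonneg_right this (Nat.cast_nonneg _)

/-- Arithmetic of the constants. -/
theorem bound_W (n K H L : ℕ) (hn : 2 ≤ n) (hKn : K ≤ n) (Y T S : ℕ)
    (hY : Y = (2 * n * K * (2 * H + 1)) ^ 5 * (2 * (L + 20 * (L + 1) * H) + 1) + 1)
    (hT : T = (8 * (L + 1) + 1) + 2 * n * Y)
    (hS : S = (T + Y) * n ^ 6 + (2 * n + 1) * Y) :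
    2 * S + 8 * (L + 1) + 1 ≤ (n * (H + 1) * (L + 1)) ^ 50 := by
  set N := n * (H + 1) * (L + 1) with hN
  have hnN : n ≤ N := by
    rw [hN, mul_assoc]
    exact Nat.le_mul_of_pos_right _ (by positivity)
  have hN2 : 2 ≤ N := hn.trans hnN
  have hHN : n * (H + 1) ≤ N := by
    rw [hN]; exact Nat.le_mul_of_pos_right _ (by positivity)
  have hL1 : (L + 1) ≤ N := by
    rw [hN]; exact Nat.le_mul_of_pos_left _ (by positivity)
  have hHL : (L + 1) * H ≤ N := by
    calc (L + 1) * H ≤ (L + 1) * (n * (H + 1)) := by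
          gcongr
          calc H ≤ H + 1 := Nat.le_succ _
            _ ≤ n * (H + 1) := Nat.le_mul_of_pos_left _ (by omega)
      _ = N := by rw [hN]; ring
  have hKN : K ≤ N := hKn.trans hnN
  clear_value N
  have e1 : 2 * n * K * (2 * H + 1) ≤ 4 * N ^ 2 := by
    calc 2 * n * K * (2 * H + 1) ≤ 2 * n * K * (2 * (H + 1)) := by gcongr; omega
      _ = 4 * (K * (n * (H + 1))) := by ring
      _ ≤ 4 * (N * N) := by gcongr
      _ = 4 * N ^ 2 := by ring
  have e2 : 2 * (L + 20 * (L + 1) * H) + 1 ≤ 64 * N := by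
    have h3 : 20 * (L + 1) * H = 20 * ((L + 1) * H) := by ring
    rw [h3]
    omega
  have hYN : Y ≤ N ^ 28 := by
    rw [hY]
    calc (2 * n * K * (2 * H + 1)) ^ 5 * (2 * (L + 20 * (L + 1) * H) + 1) + 1
        ≤ (4 * N ^ 2) ^ 5 * (64 * N) + 1 := by gcongr
      _ = 65536 * N ^ 11 + 1 := by ring
      _ ≤ 131072 * N ^ 11 := by
          have : 1 ≤ N ^ 11 := Nat.one_le_pow _ _ (by omega)
          omega
      _ = 2 ^ 17 * N ^ 11 := by norm_num
      _ ≤ N ^ 17 * N ^ 11 := by gcongr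
      _ = N ^ 28 := by ring
  have hTN : T ≤ N ^ 35 := by
    rw [hT]
    calc (8 * (L + 1) + 1) + 2 * n * Y ≤ (8 * N + N) + 2 * N * N ^ 28 := by
          gcongr
          omega
      _ = 9 * N ^ 1 + 2 * N ^ 29 := by ring
      _ ≤ 9 * N ^ 29 + 2 * N ^ 29 := by
          gcongr
          · omega
          · norm_num
      _ ≤ 2 ^ 6 * N ^ 29 := by omega
      _ ≤ N ^ 6 * N ^ 29 := by gcongr
      _ = N ^ 35 := by ring
  have hSN : S ≤ N ^ 45 := by
    rw [hS]
    calc (T + Y) * n ^ 6 + (2 * n + 1) * Y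
        ≤ (N ^ 35 + N ^ 28) * N ^ 6 + (2 * N + N) * N ^ 28 := by
          gcongr
          omega
      _ = N ^ 41 + N ^ 34 + 3 * N ^ 29 := by ring
      _ ≤ N ^ 41 + N ^ 41 + 3 * N ^ 41 := by
          gcongr <;> first | omega | norm_num
      _ ≤ 2 ^ 4 * N ^ 41 := by omega
      _ ≤ N ^ 4 * N ^ 41 := by gcongr
      _ = N ^ 45 := by ring
  calc 2 * S + 8 * (L + 1) + 1 ≤ 2 * N ^ 45 + 8 * N + N := by
        gcongr
        omega
    _ = 2 * N ^ 45 + 9 * N ^ 1 := by ring
    _ ≤ 2 * N ^ 45 + 9 * N ^ 45 := by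
        gcongr
        · omega
        · norm_num
    _ ≤ 2 ^ 5 * N ^ 45 := by omega
    _ ≤ N ^ 5 * N ^ 45 := by gcongr
    _ = N ^ 50 := by ring

set_option maxHeartbeats 4000000 in
open Classical in
theorem integer_version (hn : 2 ≤ n) (hK : 1 ≤ K) (hKn : K ≤ n) (C : Conf n K ((n : ℤ) ^ 6))
    (H L W : ℕ) (hW : (n * (H + 1) * (L + 1)) ^ 50 ≤ W)
    {Ω : Type} [Fintype Ω] (p : Ω → ℝ) (hp : ∀ w, 0 ≤ p w) (hp1 : ∑ w, p w = 1)
    (Tr : Ω → ATree n K) (hTr : ∀ w, (Tr w).All (fun q => q.vars.card ≤ 5 ∧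
      (∀ v, ∃ z : ℤ, |z| ≤ H ∧ q.coef v = z) ∧ |q.const| ≤ L)) (δ : ℝ)
    (herr : ∀ x : Arc n K → ℕ, (∀ v, 1 ≤ x v ∧ x v ≤ W) →
      ∑ w ∈ univ.filter (fun w => ¬ APSP tail head ((Tr w).run x) x), p w ≤ δ) :
    ∃ x : Arc n K → ℕ, (∀ v, 1 ≤ x v ∧ x v ≤ W) ∧
      (1 - 3 * δ) * C.ties.card ≤ ∑ w, p w * (Tr w).cost x := by
  set Zn : ℕ := L + 20 * (L + 1) * H with hZn
  set Yn : ℕ := (2 * n * K * (2 * H + 1)) ^ 5 * (2 * Zn + 1) + 1 with hYn
  set Tn : ℕ := (8 * (L + 1) + 1) + 2 * n * Yn with hTn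
  set Sn : ℕ := (Tn + Yn) * n ^ 6 + (2 * n + 1) * Yn with hSn
  have hWn := bound_W n K H L hn hKn Yn Tn Sn hYn hTn hSn
  set An : ℕ := Sn + 4 * (L + 1) + 1 with hAn
  -- the finite set of integer forms
  set S0 : Finset (Fin 5 → Arc n K × ℤ) :=
    Fintype.piFinset (fun _ => (univ : Finset (Arc n K)) ×ˢ Finset.Icc (-(H : ℤ)) H) with hS0
  have hS0c : S0.card = (2 * n * K * (2 * H + 1)) ^ 5 := by
    rw [hS0, Fintype.card_piFinset_const, Finset.card_product, Int.card_Icc]
    congr 1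
    have h1 : (univ : Finset (Arc n K)).card = 2 * n * K := by
      rw [Finset.card_univ, Fintype.card_prod, Fintype.card_sum, Fintype.card_fin,
        Fintype.card_fin]
      ring
    have h2 : ((H : ℤ) + 1 - -(H : ℤ)).toNat = 2 * H + 1 := by omega
    rw [h1, h2]
  set S := S0.filter (fun a => ∃ p, lin (fun v => (phi a v : ℝ)) (C.basis p) ≠ 0) with hS
  obtain ⟨y, hy1, hy2⟩ := T3 S (fun a => lin (fun v => (phi a v : ℝ)) (C.x0 An Tn 0))
    (fun a p => lin (fun v => (phi a v : ℝ)) (C.basis p)) (fun _ => (Zn : ℝ))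
    (fun _ _ => Nat.cast_nonneg _) Yn (by
      intro a ha
      obtain ⟨p, hp⟩ := (mem_filter.1 ha).2
      refine ⟨p, ?_⟩
      have h1 : lin (fun v => (phi a v : ℝ)) (C.basis p) =
          ((∑ v, phi a v * C.basis p v : ℤ) : ℝ) := by
        unfold lin; push_cast; rfl
      rw [h1] at hp ⊢
      have h2 : (∑ v, phi a v * C.basis p v : ℤ) ≠ 0 := by
        intro h; rw [h] at hp; simp at hp
      have h3 := Int.one_le_abs h2
      rw [← Int.cast_abs]
      exact_mod_cast h3) (by
      rw [Finset.sum_const, nsmul_eq_mul]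
      have h1 : (S.card : ℝ) ≤ ((2 * n * K * (2 * H + 1)) ^ 5 : ℕ) := by
        rw [← hS0c]; exact_mod_cast card_filter_le _ _
      have h2 : (0 : ℝ) ≤ 2 * (Zn : ℝ) + 1 := by positivity
      calc (S.card : ℝ) * (2 * (Zn : ℝ) + 1) ≤
          ((2 * n * K * (2 * H + 1)) ^ 5 : ℕ) * (2 * (Zn : ℝ) + 1) :=
            mul_le_mul_of_nonneg_right h1 h2
        _ < (Yn : ℝ) := by
            rw [hYn]; push_cast; linarith)
  have hMeq : (((L + 1 : ℕ) : ℕ) : ℝ) = (L : ℝ) + 1 := by push_cast; ring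
  have hgood : ∀ w, (Tr w).All (Good C (C.x0 An Tn y) (L + 1)) := by
    intro w
    rw [Tree.all_iff]
    intro q hq
    obtain ⟨h5, hint, hconst⟩ := (Tree.all_iff _ _).1 (hTr w) q hq
    choose z hz1 hz2 using hint
    have hcabs : ∀ v, |q.coef v| ≤ H := by
      intro v
      rw [hz2 v, ← Int.cast_abs]
      exact_mod_cast hz1 v
    refine good_of C An Tn (L + 1) y q h5 ?_ ?_
    · intro v hv
      have h1 : (1 : ℝ) ≤ |q.coef v| := by
        rw [hz2 v] at hv ⊢
        have h2 : z v ≠ 0 := by intro h; rw [h] at hv; simp at hv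
        rw [← Int.cast_abs]
        exact_mod_cast Int.one_le_abs h2
      rw [hMeq]
      have hL : (0 : ℝ) ≤ L := Nat.cast_nonneg _
      nlinarith
    · intro hex
      have hsupp : (univ.filter (fun v => z v ≠ 0)).card ≤ 5 := by
        refine le_trans (card_le_card ?_) h5
        intro v hv
        unfold Aff.vars
        simp only [mem_filter, mem_univ, true_and] at hv ⊢
        rw [hz2 v]
        exact_mod_cast hv
      obtain ⟨a, ha1, ha2⟩ := phi_rep (ι := Arc n K) (Sum.inl ⟨0, by omega⟩, ⟨0, by omega⟩) (H : ℤ)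
        (by positivity) 5 z hz1 hsupp
      have hqa : (fun v => (phi a v : ℝ)) = q.coef := by
        funext v; rw [ha2 v, hz2 v]
      have haS : a ∈ S := by
        rw [hS, mem_filter]
        refine ⟨?_, ?_⟩
        · rw [hS0, Fintype.mem_piFinset]
          intro j
          rw [Finset.mem_product]
          refine ⟨mem_univ _, ?_⟩
          rw [Finset.mem_Icc]
          exact abs_le.1 (ha1 j)
        · rw [hqa]; exact hex
      have h6 := hy2 a haS
      rw [hqa, ← lin_x0 C An Tn y] at h6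
      refine lt_of_le_of_lt ?_ h6
      have h7 := sum_abs_le q H h5 hcabs
      rw [hMeq, hZn]
      push_cast
      have h8 : (0 : ℝ) ≤ 4 * ((L : ℝ) + 1) := by positivity
      nlinarith [mul_le_mul_of_nonneg_left h7 h8]
  exact main C An Tn Yn Sn (L + 1) (Nat.succ_pos _) (by positivity) y (fun p => hy1 p)
    (by rw [hTn]; push_cast; linarith) (by rw [hSn]; push_cast; ring)
    (by rw [hAn]; push_cast; linarith) W (by
      have h1 : An + Sn + 4 * (L + 1) ≤ W := by
        refine le_trans (le_of_eq ?_) (hWn.trans hW)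
        rw [hAn]; ring
      exact_mod_cast h1)
    p hp hp1 Tr hgood δ (fun x => ∀ v, 1 ≤ x v ∧ x v ≤ W) (fun x h => h) herr

end Pool.Agent.H463R2.DU
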