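import Pool.Agent.H463R2.DU.Points

set_option autoImplicit false

open Finset

namespace Pool.Agent.H463R2.DU

variable {n K : ℕ} {b : ℤ}

theorem wrong (T : ATree n K) (e : Quad n K) (hne : e.2.1 ≠ e.2.2) (xp xe xm : Arc n K → ℕ)
    (hm : ∀ v, 2 * xm v = xp v + xe v)
    (hp : ∀ c, c ≠ e.2.2 → xp (Sum.inl e.1.1, e.2.2) + xp (Sum.inr e.1.2, e.2.2)
      < xp (Sum.inl e.1.1, c) + xp (Sum.inr e.1.2, c))
    (he : ∀ c, c ≠ e.2.1 → xe (Sum.inl e.1.1, e.2.1) + xe (Sum.inr e.1.2, e.2.1)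
      < xe (Sum.inl e.1.1, c) + xe (Sum.inr e.1.2, c))
    (hs : T.same xp xe) :
    ¬ APSP tail head (T.run xp) xp ∨ ¬ APSP tail head (T.run xe) xe ∨
      ¬ APSP tail head (T.run xm) xm := by
  by_contra hcon
  push Not at hcon
  obtain ⟨h1, h2, h3⟩ := hcon
  have r1 := T.run_eq xp xe hs
  have r2 := T.run_eq xp xm (T.same_mid xp xe xm hm hs)
  rw [← r1] at h2
  rw [← r2] at h3
  have d1 := h1 _ _ _ (T5 xp e.1.1 e.1.2 _ ⟨e.2.2, rfl⟩ (fun c => by
    by_cases h : c = e.2.2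
    · rw [h]
    · exact (hp c h).le))
  have d2 := h2 _ _ _ (T5 xe e.1.1 e.1.2 _ ⟨e.2.1, rfl⟩ (fun c => by
    by_cases h : c = e.2.1
    · rw [h]
    · exact (he c h).le))
  obtain ⟨c, -, hc⟩ := Finset.exists_min_image univ
    (fun c => xm (Sum.inl e.1.1, c) + xm (Sum.inr e.1.2, c)) ⟨e.2.1, mem_univ _⟩
  have d3 := h3 _ _ _ (T5 xm e.1.1 e.1.2 _ ⟨c, rfl⟩ (fun c' => hc c' (mem_univ _)))
  have d4 := (T.run xp (Sum.inl (Sum.inl e.1.1)) (Sum.inl (Sum.inr e.1.2))).eval_mid xp xe xm hm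
  rw [d1, d2, d3] at d4
  have d5 : 2 * (xm (Sum.inl e.1.1, c) + xm (Sum.inr e.1.2, c)) =
      (xp (Sum.inl e.1.1, e.2.2) + xp (Sum.inr e.1.2, e.2.2)) +
      (xe (Sum.inl e.1.1, e.2.1) + xe (Sum.inr e.1.2, e.2.1)) := by exact_mod_cast d4
  have m1 := hm (Sum.inl e.1.1, c)
  have m2 := hm (Sum.inr e.1.2, c)
  by_cases h : c = e.2.2
  · have h4 : c ≠ e.2.1 := fun h' => hne (h'.symm.trans h)
    have := he c h4
    rw [h] at this m1 m2 d5
    omega
  · have h4 := hp c h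
    by_cases h5 : c = e.2.1
    · rw [h5] at h4 m1 m2 d5
      omega
    · have := he c h5
      omega

open Classical in
theorem main (C : Conf n K b) (A T Y S : ℤ) (M : ℕ) (hM : 0 < M) (hY : 0 ≤ Y)
    (y : Par n K → ℤ) (hy : ∀ p, 0 ≤ y p ∧ y p ≤ Y)
    (hT : (8 * M + 1) + 2 * n * Y ≤ T)
    (hS : S = (T + Y) * b + (2 * n + 1) * Y)
    (hA : S + 4 * M + 1 ≤ A) (W : ℕ) (hW : A + S + 4 * M ≤ W)
    {Ω : Type} [Fintype Ω] (p : Ω → ℝ) (hp : ∀ w, 0 ≤ p w) (hp1 : ∑ w, p w = 1)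
    (Tr : Ω → ATree n K) (hTr : ∀ w, (Tr w).All (Good C (C.x0 A T y) M)) (δ : ℝ)
    (Adm : (Arc n K → ℕ) → Prop) (hAdm : ∀ x : Arc n K → ℕ, (∀ v, 1 ≤ x v ∧ x v ≤ W) → Adm x)
    (herr : ∀ x, Adm x →
      ∑ w ∈ univ.filter (fun w => ¬ APSP tail head ((Tr w).run x) x), p w ≤ δ) :
    ∃ x, Adm x ∧ (1 - 3 * δ) * C.ties.card ≤ ∑ w, p w * (Tr w).cost x := by
  have hnY : (0 : ℤ) ≤ 2 * n * Y := by positivity
  have hMz : (0 : ℤ) ≤ (M : ℤ) := by positivity
  have hMpos : (0 : ℤ) < (M : ℤ) := by exact_mod_cast hM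
  have hT0 : 0 ≤ T := by linarith
  set x0 := C.x0 A T y with hx0
  have hb : ∀ v, A - S ≤ x0 v ∧ x0 v ≤ A + S := fun v => by
    rw [hS]; exact U2c C A T Y y hy hT0 v
  have hpos : ∀ z : Arc n K → ℤ, (∀ v, |z v| ≤ 4 * (M : ℤ)) → ∀ v, 1 ≤ x0 v + z v := by
    intro z hz v
    have h1 := (abs_le.1 (hz v)).1
    have h2 := (hb v).1
    linarith
  have hup : ∀ z : Arc n K → ℤ, (∀ v, |z v| ≤ 4 * (M : ℤ)) → ∀ v, x0 v + z v ≤ W := by
    intro z hz v
    have h1 := (abs_le.1 (hz v)).2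
    have h2 := (hb v).2
    linarith
  have hptc : ∀ z : Arc n K → ℤ, (∀ v, |z v| ≤ 4 * (M : ℤ)) → ∀ v,
      ((pt x0 z v : ℕ) : ℤ) = x0 v + z v := by
    intro z hz v
    unfold pt
    exact Int.toNat_of_nonneg (by linarith [hpos z hz v])
  have hadm : ∀ z : Arc n K → ℤ, (∀ v, |z v| ≤ 4 * (M : ℤ)) → Adm (pt x0 z) := by
    intro z hz
    apply hAdm
    intro v
    have h1 := hptc z hz v
    have h2 := hpos z hz v
    have h3 := hup z hz v
    constructor
    · have : (1 : ℤ) ≤ ((pt x0 z v : ℕ) : ℤ) := by linarith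
      exact_mod_cast this
    · have : ((pt x0 z v : ℕ) : ℤ) ≤ ((W : ℕ) : ℤ) := by linarith
      exact_mod_cast this
  refine ⟨pt x0 (zp C M), hadm _ (zp_abs C _ hMz), ?_⟩
  refine expected C.ties p hp hp1 (fun w => (Tr w).cost (pt x0 (zp C M)))
    (fun w e => (Tr w).same (pt x0 (zp C M)) (pt x0 (ze C M e)))
    (fun w => ¬ APSP tail head ((Tr w).run (pt x0 (zp C M))) (pt x0 (zp C M)))
    (fun w e => ¬ APSP tail head ((Tr w).run (pt x0 (ze C M e))) (pt x0 (ze C M e)))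
    (fun w e => ¬ APSP tail head ((Tr w).run (pt x0 (zm C M e))) (pt x0 (zm C M e)))
    δ ?_ ?_ (by convert herr _ (hadm _ (zp_abs C _ hMz)))
    (fun e _ => by convert herr _ (hadm _ (ze_abs C _ hMz e)))
    (fun e _ => by convert herr _ (hadm _ (zm_abs C _ hMz e)))
  · intro w
    refine Tree.count C.ties (pt x0 (zp C M)) (fun e => pt x0 (ze C M e)) _ ?_ (Tr w) (hTr w)
    intro q hq
    refine good_card C x0 M hM (fun v => by linarith [hpos _ (zp_abs C _ hMz) v])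
      (fun e v => by linarith [hpos _ (ze_abs C _ hMz e) v]) (fun e he => U2a C A T y e he) q hq
  · intro w e he hs
    have ht : C.Tie e := by unfold Conf.ties at he; exact (mem_filter.1 he).2
    have hthc : C.th e.2.1 = false := ht.1
    have hthd : C.th e.2.2 = true := ht.2.1
    have htie := U2a C A T y e ht
    have hgap := fun c h1 h2 => U2b C A T (8 * M + 1) Y y hy (by positivity) hT e ht c h1 h2
    rw [← hx0] at htie hgap
    refine wrong (Tr w) e ht.ne _ _ (pt x0 (zm C M e)) ?_ ?_ ?_ hs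
    · intro v
      have h1 := hptc _ (zp_abs C _ hMz) v
      have h2 := hptc _ (ze_abs C _ hMz e) v
      have h3 := hptc _ (zm_abs C _ hMz e) v
      have h4 := zm_mid C M e v
      have : 2 * ((pt x0 (zm C M e) v : ℕ) : ℤ) = ((pt x0 (zp C M) v : ℕ) : ℤ) +
          ((pt x0 (ze C M e) v : ℕ) : ℤ) := by
        rw [h1, h2, h3]; linarith
      exact_mod_cast this
    · intro c hc
      have h1 := hptc _ (zp_abs C _ hMz) (Sum.inl e.1.1, e.2.2)
      have h2 := hptc _ (zp_abs C _ hMz) (Sum.inr e.1.2, e.2.2)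
      have h3 := hptc _ (zp_abs C _ hMz) (Sum.inl e.1.1, c)
      have h4 := hptc _ (zp_abs C _ hMz) (Sum.inr e.1.2, c)
      simp only [zp, hthd, if_true] at h1 h2 h3 h4
      have goal : ((pt x0 (zp C M) (Sum.inl e.1.1, e.2.2) : ℕ) : ℤ) +
          ((pt x0 (zp C M) (Sum.inr e.1.2, e.2.2) : ℕ) : ℤ) <
          ((pt x0 (zp C M) (Sum.inl e.1.1, c) : ℕ) : ℤ) +
          ((pt x0 (zp C M) (Sum.inr e.1.2, c) : ℕ) : ℤ) := by
        rw [h1, h2, h3, h4]
        by_cases h5 : c = e.2.1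
        · subst h5
          rw [hthc]
          simp only [Bool.false_eq_true, if_false]
          linarith
        · have h6 := hgap c h5 hc
          have h7 : (if C.th c = true then -4 * (M : ℤ) else 0) ≥ -4 * M := by
            split_ifs <;> linarith
          linarith
      exact_mod_cast goal
    · intro c hc
      have h1 := hptc _ (ze_abs C _ hMz e) (Sum.inl e.1.1, e.2.1)
      have h2 := hptc _ (ze_abs C _ hMz e) (Sum.inr e.1.2, e.2.1)
      have h3 := hptc _ (ze_abs C _ hMz e) (Sum.inl e.1.1, c)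
      have h4 := hptc _ (ze_abs C _ hMz e) (Sum.inr e.1.2, c)
      simp only [ze, true_or, or_true, if_true, hthc, Bool.false_eq_true, if_false] at h1 h2 h3 h4
      have goal : ((pt x0 (ze C M e) (Sum.inl e.1.1, e.2.1) : ℕ) : ℤ) +
          ((pt x0 (ze C M e) (Sum.inr e.1.2, e.2.1) : ℕ) : ℤ) <
          ((pt x0 (ze C M e) (Sum.inl e.1.1, c) : ℕ) : ℤ) +
          ((pt x0 (ze C M e) (Sum.inr e.1.2, c) : ℕ) : ℤ) := by
        rw [h1, h2, h3, h4]
        by_cases h5 : c = e.2.2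
        · subst h5
          rw [hthd]
          simp only [if_true]
          linarith
        · have h6 := hgap c hc h5
          split_ifs <;> linarith
      exact_mod_cast goal

end Pool.Agent.H463R2.DU
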