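import Mathlib

set_option autoImplicit false

open Finset

namespace Pool.Agent.H463R2.DU

/-! Affine forms and decision trees. -/

/-- An affine form in real variables indexed by `ι`. -/
structure Aff (ι : Type) where
  coef : ι → ℝ
  const : ℝ

/-- The value of an affine form at a vector of natural numbers. -/
noncomputable def Aff.eval {ι : Type} [Fintype ι] (q : Aff ι) (x : ι → ℕ) : ℝ :=
  ∑ i, q.coef i * (x i : ℝ) + q.const

open Classical in
/-- The variables that occur in an affine form. -/
noncomputable def Aff.vars {ι : Type} [Fintype ι] (q : Aff ι) : Finset ι :=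
  univ.filter fun i => q.coef i ≠ 0

/-- Decision trees: every inner node compares an affine form with `0` (three outcomes). -/
inductive Tree (ι O : Type) : Type
  | leaf (o : O) : Tree ι O
  | node (q : Aff ι) (l e g : Tree ι O) : Tree ι O

/-- The output of a decision tree. -/
noncomputable def Tree.run {ι O : Type} [Fintype ι] : Tree ι O → (ι → ℕ) → O
  | .leaf o, _ => o
  | .node q l e g, x =>
      if q.eval x < 0 then l.run x else if q.eval x = 0 then e.run x else g.run x

/-- The number of tests made on the input `x`. -/
noncomputable def Tree.cost {ι O : Type} [Fintype ι] : Tree ι O → (ι → ℕ) → ℕ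
  | .leaf _, _ => 0
  | .node q l e g, x =>
      1 + (if q.eval x < 0 then l.cost x else if q.eval x = 0 then e.cost x else g.cost x)

/-- All tests of the tree satisfy `P`. -/
def Tree.All {ι O : Type} (P : Aff ι → Prop) : Tree ι O → Prop
  | .leaf _ => True
  | .node q l e g => P q ∧ l.All P ∧ e.All P ∧ g.All P

/-! Directed graphs, walks and distances. -/

/-- `Walk tail head s t w`: the list `w` of arcs is a walk from `s` to `t`. -/
inductive Walk {V ι : Type} (tail head : ι → V) : V → V → List ι → Prop
  | nil (v : V) : Walk tail head v v []
  | cons (a : ι) (t : V) (w : List ι) : Walk tail head (head a) t w →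
      Walk tail head (tail a) t (a :: w)

/-- The weight of a list of arcs. -/
def weight {ι : Type} (x : ι → ℕ) (w : List ι) : ℕ := (w.map x).sum

/-- `d` is the distance from `s` to `t`. -/
def IsDist {V ι : Type} (tail head : ι → V) (x : ι → ℕ) (s t : V) (d : ℕ) : Prop :=
  (∃ w, Walk tail head s t w ∧ weight x w = d) ∧ ∀ w, Walk tail head s t w → d ≤ weight x w

/-- The outcome `o` (an affine form in the arc weights for every pair of vertices) gives all
distances at the weights `x`: for all `s`, `t` such that `t` can be reached from `s`. -/
def APSP {V ι : Type} [Fintype ι] (tail head : ι → V) (o : V → V → Aff ι) (x : ι → ℕ) : Prop :=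
  ∀ s t d, IsDist tail head x s t d → (o s t).eval x = d

/-- The vertices of the three-layer digraph: `n` sources, `n` sinks and `K` middle vertices. -/
abbrev Vert (n K : ℕ) : Type := (Fin n ⊕ Fin n) ⊕ Fin K

/-- The arcs: `(inl r, c)` from the source `r` to the middle vertex `c`, and `(inr s, c)` from the
middle vertex `c` to the sink `s`. -/
abbrev Arc (n K : ℕ) : Type := (Fin n ⊕ Fin n) × Fin K

/-- The tail of an arc. -/
def tail {n K : ℕ} : Arc n K → Vert n K
  | (Sum.inl r, _) => Sum.inl (Sum.inl r)
  | (Sum.inr _, c) => Sum.inr c

/-- The head of an arc. -/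
def head {n K : ℕ} : Arc n K → Vert n K
  | (Sum.inl _, c) => Sum.inr c
  | (Sum.inr s, _) => Sum.inl (Sum.inr s)

/-- Decision trees for APSP on the three-layer digraph. -/
abbrev ATree (n K : ℕ) : Type := Tree (Arc n K) (Vert n K → Vert n K → Aff (Arc n K))

end Pool.Agent.H463R2.DU
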