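import Mathlib

set_option autoImplicit false

open Finset

namespace Pool.Agent.H463R2.DU

theorem T3_line (c b Z : ℝ) (hZ : 0 ≤ Z) (hb : 1 ≤ |b|) (Y : ℕ) :
    (((univ : Finset (Fin Y)).filter (fun t : Fin Y => |c + b * ((t : ℕ) : ℝ)| ≤ Z)).card : ℝ) ≤
      2 * Z + 1 := by
  classical
  set F := (univ : Finset (Fin Y)).filter (fun t : Fin Y => |c + b * ((t : ℕ) : ℝ)| ≤ Z) with hF
  set A : Finset ℕ := F.image (fun t : Fin Y => (t : ℕ)) with hA
  have hcard : A.card = F.card := Finset.card_image_of_injective _ Fin.val_injective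
  have hmem : ∀ m ∈ A, |c + b * (m : ℝ)| ≤ Z := by
    intro m hm
    obtain ⟨t, ht, rfl⟩ := Finset.mem_image.1 hm
    exact (Finset.mem_filter.1 ht).2
  rw [← hcard]
  by_cases hne : A.Nonempty
  · have h1 := hmem _ (A.min'_mem hne)
    have h2 := hmem _ (A.max'_mem hne)
    set m := A.min' hne with hm
    set M := A.max' hne with hM
    have hmM : m ≤ M := A.min'_le_max' hne
    have hsub : A ⊆ Finset.Icc m M := by
      intro x hx
      rw [Finset.mem_Icc]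
      exact ⟨A.min'_le x hx, A.le_max' x hx⟩
    have hc : A.card ≤ M + 1 - m := by
      have := Finset.card_le_card hsub
      rwa [Nat.card_Icc] at this
    have hc2 : (A.card : ℝ) ≤ (M : ℝ) - m + 1 := by
      have : A.card + m ≤ M + 1 := by omega
      have h3 : ((A.card + m : ℕ) : ℝ) ≤ ((M + 1 : ℕ) : ℝ) := by exact_mod_cast this
      push_cast at h3
      linarith
    have h3 : |b * ((M : ℝ) - m)| ≤ 2 * Z := by
      have e : b * ((M : ℝ) - m) = (c + b * (M : ℝ)) - (c + b * (m : ℝ)) := by ring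
      rw [e]
      calc |(c + b * (M : ℝ)) - (c + b * (m : ℝ))| ≤ |c + b * (M : ℝ)| + |c + b * (m : ℝ)| :=
            abs_sub _ _
        _ ≤ 2 * Z := by linarith
    have hMm : 0 ≤ (M : ℝ) - m := by
      have : (m : ℝ) ≤ M := by exact_mod_cast hmM
      linarith
    rw [abs_mul, abs_of_nonneg hMm] at h3
    have h4 : (M : ℝ) - m ≤ |b| * ((M : ℝ) - m) := le_mul_of_one_le_left hMm hb
    linarith
  · rw [Finset.not_nonempty_iff_eq_empty] at hne
    rw [hne]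
    simp
    linarith

theorem T3_count {P : Type} [Fintype P] [DecidableEq P] (a : ℝ) (b : P → ℝ) (Z : ℝ)
    (hZ : 0 ≤ Z) (Y : ℕ) (hb : ∃ p, 1 ≤ |b p|) :
    (((univ : Finset (P → Fin Y)).filter
      (fun y => |a + ∑ p, b p * ((y p : ℕ) : ℝ)| ≤ Z)).card : ℝ) * Y ≤
      (2 * Z + 1) * (Y : ℝ) ^ Fintype.card P := by
  classical
  obtain ⟨p, hp⟩ := hb
  let e : (P → Fin Y) × Fin Y ≃ (P → Fin Y) × Fin Y :=
    { toFun := fun x => (Function.update x.1 p x.2, x.1 p)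
      invFun := fun x => (Function.update x.1 p x.2, x.1 p)
      left_inv := by
        rintro ⟨y, t⟩
        simp
      right_inv := by
        rintro ⟨y, t⟩
        simp }
  have h1 : (((univ : Finset (P → Fin Y)).filter
      (fun y => |a + ∑ p, b p * ((y p : ℕ) : ℝ)| ≤ Z)).card : ℝ) * Y =
      ∑ x : (P → Fin Y) × Fin Y,
        if |a + ∑ p, b p * ((x.1 p : ℕ) : ℝ)| ≤ Z then (1 : ℝ) else 0 := by
    rw [Fintype.sum_prod_type]
    simp only [Finset.sum_const, Finset.card_univ, Fintype.card_fin, nsmul_eq_mul]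
    rw [← Finset.mul_sum, Finset.sum_boole, mul_comm]
  have h2 : ∑ x : (P → Fin Y) × Fin Y,
        (if |a + ∑ p, b p * ((x.1 p : ℕ) : ℝ)| ≤ Z then (1 : ℝ) else 0) =
      ∑ x : (P → Fin Y) × Fin Y,
        (if |a + ∑ j, b j * ((Function.update x.1 p x.2 j : ℕ) : ℝ)| ≤ Z then (1 : ℝ) else 0) :=
    (Equiv.sum_comp e (fun x : (P → Fin Y) × Fin Y =>
      if |a + ∑ p, b p * ((x.1 p : ℕ) : ℝ)| ≤ Z then (1 : ℝ) else 0)).symm
  have h3 : ∀ y : P → Fin Y, ∑ t : Fin Y,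
      (if |a + ∑ j, b j * ((Function.update y p t j : ℕ) : ℝ)| ≤ Z then (1 : ℝ) else 0) ≤
      2 * Z + 1 := by
    intro y
    rw [Finset.sum_boole]
    refine le_trans (le_of_eq ?_)
      (T3_line (a + ∑ j ∈ univ.erase p, b j * ((y j : ℕ) : ℝ)) (b p) Z hZ hp Y)
    congr 1
    congr 1
    ext t
    simp only [Finset.mem_filter, Finset.mem_univ, true_and]
    have h4 : ∑ j, b j * ((Function.update y p t j : ℕ) : ℝ) =
        b p * ((t : ℕ) : ℝ) + ∑ j ∈ univ.erase p, b j * ((y j : ℕ) : ℝ) := by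
      rw [← Finset.add_sum_erase _ _ (Finset.mem_univ p), Function.update_self]
      congr 1
      refine Finset.sum_congr rfl (fun j hj => ?_)
      rw [Function.update_of_ne (Finset.ne_of_mem_erase hj)]
    rw [h4]
    have h5 : a + (b p * ((t : ℕ) : ℝ) + ∑ j ∈ univ.erase p, b j * ((y j : ℕ) : ℝ)) =
        a + ∑ j ∈ univ.erase p, b j * ((y j : ℕ) : ℝ) + b p * ((t : ℕ) : ℝ) := by ring
    rw [h5]
  rw [h1, h2, Fintype.sum_prod_type]
  calc ∑ y : P → Fin Y, ∑ t : Fin Y,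
      (if |a + ∑ j, b j * ((Function.update y p t j : ℕ) : ℝ)| ≤ Z then (1 : ℝ) else 0)
      ≤ ∑ _y : P → Fin Y, (2 * Z + 1) := Finset.sum_le_sum (fun y _ => h3 y)
    _ = (2 * Z + 1) * (Y : ℝ) ^ Fintype.card P := by
        rw [Finset.sum_const, Finset.card_univ, Fintype.card_fun, Fintype.card_fin,
          nsmul_eq_mul, mul_comm]
        push_cast
        rfl

/-! T3: a good choice of the parameters, by counting. -/
theorem T3 {P Q : Type} [Fintype P] [DecidableEq P] (S : Finset Q) (a : Q → ℝ) (b : Q → P → ℝ)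
    (Z : Q → ℝ) (hZ : ∀ q ∈ S, 0 ≤ Z q) (Y : ℕ) (hb : ∀ q ∈ S, ∃ p, 1 ≤ |b q p|)
    (hY : ∑ q ∈ S, (2 * Z q + 1) < (Y : ℝ)) :
    ∃ y : P → ℤ, (∀ p, 0 ≤ y p ∧ y p ≤ Y) ∧ ∀ q ∈ S, Z q < |a q + ∑ p, b q p * (y p : ℝ)| := by
  classical
  have hY0 : (0 : ℝ) < Y :=
    lt_of_le_of_lt (Finset.sum_nonneg (fun q hq => by linarith [hZ q hq])) hY
  by_contra hcon
  push Not at hcon
  have h1 : ∀ y : P → Fin Y, ∃ q ∈ S, |a q + ∑ p, b q p * ((y p : ℕ) : ℝ)| ≤ Z q := by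
    intro y
    obtain ⟨q, hq, h⟩ := hcon (fun p => ((y p : ℕ) : ℤ)) (fun p =>
      ⟨Int.natCast_nonneg _, by exact_mod_cast (y p).2.le⟩)
    refine ⟨q, hq, ?_⟩
    simpa using h
  have h2 : (univ : Finset (P → Fin Y)) ⊆ S.biUnion (fun q =>
      (univ : Finset (P → Fin Y)).filter (fun y => |a q + ∑ p, b q p * ((y p : ℕ) : ℝ)| ≤ Z q)) := by
    intro y _
    obtain ⟨q, hq, h⟩ := h1 y
    exact Finset.mem_biUnion.2 ⟨q, hq, Finset.mem_filter.2 ⟨Finset.mem_univ _, h⟩⟩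
  have h3 : ((Fintype.card (P → Fin Y) : ℕ) : ℝ) ≤ ∑ q ∈ S, (((univ : Finset (P → Fin Y)).filter
      (fun y => |a q + ∑ p, b q p * ((y p : ℕ) : ℝ)| ≤ Z q)).card : ℝ) := by
    have := (Finset.card_le_card h2).trans Finset.card_biUnion_le
    rw [Finset.card_univ] at this
    exact_mod_cast this
  have hYP : (0 : ℝ) < (Y : ℝ) ^ Fintype.card P := by positivity
  have h4 : (Y : ℝ) ^ Fintype.card P * Y ≤ (∑ q ∈ S, (2 * Z q + 1)) * (Y : ℝ) ^ Fintype.card P := by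
    calc (Y : ℝ) ^ Fintype.card P * Y = ((Fintype.card (P → Fin Y) : ℕ) : ℝ) * Y := by
          rw [Fintype.card_fun, Fintype.card_fin]
          push_cast
          rfl
      _ ≤ (∑ q ∈ S, (((univ : Finset (P → Fin Y)).filter
            (fun y => |a q + ∑ p, b q p * ((y p : ℕ) : ℝ)| ≤ Z q)).card : ℝ)) * Y :=
          mul_le_mul_of_nonneg_right h3 hY0.le
      _ = ∑ q ∈ S, (((univ : Finset (P → Fin Y)).filter
            (fun y => |a q + ∑ p, b q p * ((y p : ℕ) : ℝ)| ≤ Z q)).card : ℝ) * Y :=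
          Finset.sum_mul _ _ _
      _ ≤ ∑ q ∈ S, (2 * Z q + 1) * (Y : ℝ) ^ Fintype.card P :=
          Finset.sum_le_sum (fun q hq => T3_count (a q) (b q) (Z q) (hZ q hq) Y (hb q hq))
      _ = (∑ q ∈ S, (2 * Z q + 1)) * (Y : ℝ) ^ Fintype.card P := (Finset.sum_mul _ _ _).symm
  have h5 := mul_lt_mul_of_pos_right hY hYP
  linarith

end Pool.Agent.H463R2.DU
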