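import Pool.Agent.H463R2.DU.Model

set_option autoImplicit false

open Finset

namespace Pool.Agent.H463R2.DU

variable {n K : ℕ}

theorem T5_inv {V ι : Type} {tl hd : ι → V} {s t : V} {w : List ι} (h : Walk tl hd s t w) :
    (w = [] ∧ s = t) ∨ ∃ a w', w = a :: w' ∧ tl a = s ∧ Walk tl hd (hd a) t w' := by
  cases h with
  | nil => exact Or.inl ⟨rfl, rfl⟩
  | cons a t w hw => exact Or.inr ⟨a, w, rfl, rfl, hw⟩

theorem T5_walk {r s : Fin n} {w : List (Arc n K)}
    (h : Walk tail head (Sum.inl (Sum.inl r)) (Sum.inl (Sum.inr s)) w) :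
    ∃ c, w = [(Sum.inl r, c), (Sum.inr s, c)] := by
  rcases T5_inv h with ⟨_, h1⟩ | ⟨a, w1, rfl, h1, h2⟩
  · exact absurd h1 (by simp)
  obtain ⟨g, c⟩ := a
  rcases g with r' | s'
  swap
  · exact absurd h1 (by simp [tail])
  simp only [tail, Sum.inl.injEq] at h1
  subst h1
  simp only [head] at h2
  rcases T5_inv h2 with ⟨_, h3⟩ | ⟨a, w2, rfl, h3, h4⟩
  · exact absurd h3 (by simp)
  obtain ⟨g, d⟩ := a
  rcases g with r' | s'
  · exact absurd h3 (by simp [tail])
  simp only [tail, Sum.inr.injEq] at h3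
  subst h3
  simp only [head] at h4
  rcases T5_inv h4 with ⟨rfl, h5⟩ | ⟨a, w3, rfl, h5, _⟩
  · simp only [Sum.inl.injEq, Sum.inr.injEq] at h5
    subst h5
    exact ⟨d, rfl⟩
  · obtain ⟨g, e⟩ := a
    rcases g with r' | s''
    · exact absurd h5 (by simp [tail])
    · exact absurd h5 (by simp [tail])

/-! T5: distances in the three-layer digraph. -/
theorem T5 (x : Arc n K → ℕ) (r s : Fin n) (m : ℕ)
    (h1 : ∃ c, x (Sum.inl r, c) + x (Sum.inr s, c) = m)
    (h2 : ∀ c, m ≤ x (Sum.inl r, c) + x (Sum.inr s, c)) :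
    IsDist tail head x (Sum.inl (Sum.inl r)) (Sum.inl (Sum.inr s)) m := by
  constructor
  · obtain ⟨c, hc⟩ := h1
    refine ⟨[(Sum.inl r, c), (Sum.inr s, c)], ?_, ?_⟩
    · exact Walk.cons (tail := tail) (head := head) (Sum.inl r, c) _ _
        (Walk.cons (tail := tail) (head := head) (Sum.inr s, c) _ _ (Walk.nil _))
    · simp [weight, hc]
  · intro w hw
    obtain ⟨c, rfl⟩ := T5_walk hw
    simpa [weight] using h2 c

end Pool.Agent.H463R2.DU
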