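import Pool.Agent.H463R2.DU.Conf

set_option autoImplicit false

/-! U1 (helper409, adapted from DT/T1.lean of helper231): classification of the forms with at most 5
variables that vanish on all parameters of a configuration. -/

open Finset

namespace Pool.Agent.H463R2.DU

variable {n K : ℕ} {b : ℤ}

theorem u1_sg_sq (g : Fin n ⊕ Fin n) : (sg g : ℝ) * sg g = 1 := by
  cases g <;> simp [sg]

theorem u1_sg_ne (g : Fin n ⊕ Fin n) : (sg g : ℝ) ≠ 0 := by
  intro h
  have := u1_sg_sq g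
  rw [h] at this
  norm_num at this

/-- every row has at least two variables -/
theorem u1_row (C : Conf n K b) (q : Arc n K → ℝ)
    (h : ∀ p : Par n K, ∑ v, q v * (C.basis p v : ℝ) = 0) (g : Fin n ⊕ Fin n) (c : Fin K)
    (hq : q (g, c) ≠ 0) : ∃ c', c' ≠ c ∧ q (g, c') ≠ 0 := by
  by_contra hcon
  push Not at hcon
  have h1 := h (Sum.inl g)
  rw [Finset.sum_eq_single (g, c)] at h1
  · simp only [Conf.basis, if_true, Int.cast_one, mul_one] at h1
    exact hq h1
  · rintro ⟨g', c'⟩ _ hne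
    by_cases hg : g' = g
    · subst hg
      have : c' ≠ c := fun e => hne (by rw [e])
      rw [hcon c' this, zero_mul]
    · simp [Conf.basis, hg]
  · intro h2
    exact absurd (Finset.mem_univ _) h2

/-- every block of a column has at least two variables -/
theorem u1_col (C : Conf n K b) (q : Arc n K → ℝ)
    (h : ∀ p : Par n K, ∑ v, q v * (C.basis p v : ℝ) = 0) (g : Fin n ⊕ Fin n) (c : Fin K)
    (hq : q (g, c) ≠ 0) : ∃ g', g' ≠ g ∧ C.ty c g' = C.ty c g ∧ q (g', c) ≠ 0 := by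
  by_contra hcon
  push Not at hcon
  have h1 := h (Sum.inr (Sum.inl (c, g)))
  rw [Finset.sum_eq_single (g, c)] at h1
  · simp only [Conf.basis, and_self, if_true] at h1
    rcases mul_eq_zero.mp h1 with h2 | h2
    · exact hq h2
    · exact u1_sg_ne g h2
  · rintro ⟨g', c'⟩ _ hne
    by_cases hc : c' = c ∧ C.ty c' g' = C.ty c' g
    · obtain ⟨rfl, h3⟩ := hc
      have : g' ≠ g := fun e => hne (by rw [e])
      rw [hcon g' this h3, zero_mul]
    · simp [Conf.basis, hc]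
  · intro h2
    exact absurd (Finset.mem_univ _) h2

/-- sums over a rectangle -/
theorem u1_sum (q : Arc n K → ℝ) {g1 g2 : Fin n ⊕ Fin n} {c1 c2 : Fin K} (hg : g1 ≠ g2)
    (hc : c1 ≠ c2) (hsup : ∀ v, q v ≠ 0 → (v.1 = g1 ∨ v.1 = g2) ∧ (v.2 = c1 ∨ v.2 = c2))
    (F : Arc n K → ℝ) : ∑ v, q v * F v = q (g1, c1) * F (g1, c1) + q (g1, c2) * F (g1, c2) +
      q (g2, c1) * F (g2, c1) + q (g2, c2) * F (g2, c2) := by
  have h1 : ∑ v ∈ ({(g1, c1), (g1, c2), (g2, c1), (g2, c2)} : Finset (Arc n K)), q v * F v =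
      ∑ v, q v * F v := by
    apply Finset.sum_subset (Finset.subset_univ _)
    rintro ⟨g, c⟩ _ hv
    have h2 : q (g, c) = 0 := by
      by_contra h3
      obtain ⟨h4, h5⟩ := hsup _ h3
      simp only at h4 h5
      apply hv
      rcases h4 with rfl | rfl <;> rcases h5 with rfl | rfl <;> simp
    rw [h2, zero_mul]
  rw [← h1, Finset.sum_insert, Finset.sum_insert, Finset.sum_insert, Finset.sum_singleton]
  · ring
  · simp [hc]
  · simp [hg]
  · simp [hg, hc]

/-- the values of the form on a rectangle -/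
theorem u1_vals (C : Conf n K b) (q : Arc n K → ℝ)
    (h : ∀ p : Par n K, ∑ v, q v * (C.basis p v : ℝ) = 0) {g1 g2 : Fin n ⊕ Fin n}
    {c1 c2 : Fin K} (hg : g1 ≠ g2)
    (hc : c1 ≠ c2) (hsup : ∀ v, q v ≠ 0 → (v.1 = g1 ∨ v.1 = g2) ∧ (v.2 = c1 ∨ v.2 = c2))
    (hI : C.ty c1 g2 = C.ty c1 g1) :
    q (g1, c2) = - q (g1, c1) ∧ q (g2, c1) = - (sg g1 * sg g2 * q (g1, c1)) ∧
      q (g2, c2) = sg g1 * sg g2 * q (g1, c1) := by
  have e1 := h (Sum.inl g1)
  have e2 := h (Sum.inl g2)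
  have e3 := h (Sum.inr (Sum.inl (c1, g1)))
  rw [u1_sum q hg hc hsup] at e1 e2 e3
  simp only [Conf.basis, if_true, Int.cast_one, mul_one, if_neg hg, if_neg hg.symm, Int.cast_zero,
    mul_zero, add_zero, zero_add, and_self, hI, hc.symm, false_and, if_false] at e1 e2 e3
  have h1 := u1_sg_sq g1
  have h2 := u1_sg_sq g2
  refine ⟨by linarith, ?_, ?_⟩
  · linear_combination (sg g2 : ℝ) * e3 - q (g2, c1) * h2
  · linear_combination e2 - (sg g2 : ℝ) * e3 + q (g2, c1) * h2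

/-- the equation for the main part -/
theorem u1_third (C : Conf n K b) (q : Arc n K → ℝ)
    (h : ∀ p : Par n K, ∑ v, q v * (C.basis p v : ℝ) = 0) {g1 g2 : Fin n ⊕ Fin n}
    {c1 c2 : Fin K} (hg : g1 ≠ g2)
    (hc : c1 ≠ c2) (hsup : ∀ v, q v ≠ 0 → (v.1 = g1 ∨ v.1 = g2) ∧ (v.2 = c1 ∨ v.2 = c2))
    (hI : C.ty c1 g2 = C.ty c1 g1) (hq : q (g1, c1) ≠ 0) :
    C.m (g1, c1) - C.m (g1, c2) = sg g1 * sg g2 * (C.m (g2, c1) - C.m (g2, c2)) := by
  have e := h (Sum.inr (Sum.inr ()))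
  obtain ⟨v1, v2, v3⟩ := u1_vals C q h hg hc hsup hI
  rw [u1_sum q hg hc hsup, v1, v2, v3] at e
  simp only [Conf.basis] at e
  have h3 : q (g1, c1) * (((C.m (g1, c1) - C.m (g1, c2) : ℤ) : ℝ) -
      ((sg g1 * sg g2 * (C.m (g2, c1) - C.m (g2, c2)) : ℤ) : ℝ)) = 0 := by
    push_cast
    linear_combination e
  rcases mul_eq_zero.mp h3 with h5 | h5
  · exact absurd h5 hq
  · have : ((C.m (g1, c1) - C.m (g1, c2) : ℤ) : ℝ) =
      ((sg g1 * sg g2 * (C.m (g2, c1) - C.m (g2, c2)) : ℤ) : ℝ) := by linarith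
    exact_mod_cast this

/-- the case of opposite sides -/
theorem u1_opp (C : Conf n K b) (q : Arc n K → ℝ)
    (h : ∀ p : Par n K, ∑ v, q v * (C.basis p v : ℝ) = 0) {r s : Fin n} {c1 c2 : Fin K}
    (hc : c1 ≠ c2) (ht1 : C.th c1 = false) (ht2 : C.th c2 = true)
    (hsup : ∀ v, q v ≠ 0 → (v.1 = Sum.inl r ∨ v.1 = Sum.inr s) ∧ (v.2 = c1 ∨ v.2 = c2))
    (hI1 : C.ty c1 (Sum.inr s) = C.ty c1 (Sum.inl r)) (hI2 : C.ty c2 (Sum.inr s) = C.ty c2 (Sum.inl r))
    (hq : q (Sum.inl r, c1) ≠ 0) :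
    ∃ e ∈ C.ties, ∃ c : ℝ, c ≠ 0 ∧ ∀ v, q v = c * (dco e v : ℝ) := by
  have hg : (Sum.inl r : Fin n ⊕ Fin n) ≠ Sum.inr s := by simp
  have h3 := u1_third C q h hg hc hsup hI1 hq
  obtain ⟨v1, v2, v3⟩ := u1_vals C q h hg hc hsup hI1
  have hs1 : sg (Sum.inl r : Fin n ⊕ Fin n) = 1 := rfl
  have hs2 : sg (Sum.inr s : Fin n ⊕ Fin n) = -1 := rfl
  rw [hs1, hs2] at h3
  refine ⟨((r, s), (c1, c2)), ?_, q (Sum.inl r, c1), hq, ?_⟩
  · classical
    unfold Conf.ties
    rw [Finset.mem_filter]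
    refine ⟨Finset.mem_univ _, ht1, ht2, hI1.symm, hI2.symm, ?_⟩
    simp only
    linarith
  · rintro ⟨g, c⟩
    have hsg : (sg (Sum.inl r : Fin n ⊕ Fin n) : ℝ) * sg (Sum.inr s : Fin n ⊕ Fin n) = -1 := by
      simp [sg]
    rw [hsg] at v2 v3
    have w2 : q (Sum.inr s, c1) = q (Sum.inl r, c1) := by rw [v2]; ring
    have w3 : q (Sum.inr s, c2) = - q (Sum.inl r, c1) := by rw [v3]; ring
    unfold dco
    by_cases h1 : (g, c) = (Sum.inl r, c1) ∨ (g, c) = (Sum.inr s, c1)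
    · rw [if_pos h1, Int.cast_one, mul_one]
      rcases h1 with h1 | h1
      · rw [h1]
      · rw [h1, w2]
    · rw [if_neg h1]
      by_cases h2 : (g, c) = (Sum.inl r, c2) ∨ (g, c) = (Sum.inr s, c2)
      · rw [if_pos h2]
        push_cast
        rcases h2 with h2 | h2
        · rw [h2, v1]; ring
        · rw [h2, w3]; ring
      · rw [if_neg h2, Int.cast_zero, mul_zero]
        by_contra h4
        obtain ⟨h5, h6⟩ := hsup _ h4
        simp only at h5 h6
        rcases h5 with rfl | rfl <;> rcases h6 with rfl | rfl <;> simp at h1 h2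

/-- opposite sides, columns in any order -/
theorem u1_opp' (C : Conf n K b) (q : Arc n K → ℝ)
    (h : ∀ p : Par n K, ∑ v, q v * (C.basis p v : ℝ) = 0) {r s : Fin n} {c1 c2 : Fin K}
    (hc : c1 ≠ c2) (ht : C.th c1 ≠ C.th c2)
    (hsup : ∀ v, q v ≠ 0 → (v.1 = Sum.inl r ∨ v.1 = Sum.inr s) ∧ (v.2 = c1 ∨ v.2 = c2))
    (hI1 : C.ty c1 (Sum.inr s) = C.ty c1 (Sum.inl r)) (hI2 : C.ty c2 (Sum.inr s) = C.ty c2 (Sum.inl r))
    (hq : q (Sum.inl r, c1) ≠ 0) (hq2 : q (Sum.inl r, c2) ≠ 0) :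
    ∃ e ∈ C.ties, ∃ c : ℝ, c ≠ 0 ∧ ∀ v, q v = c * (dco e v : ℝ) := by
  rcases h1 : C.th c1 with _ | _
  · rcases h2 : C.th c2 with _ | _
    · rw [h1, h2] at ht; exact absurd rfl ht
    · exact u1_opp C q h hc h1 h2 hsup hI1 hI2 hq
  · rcases h2 : C.th c2 with _ | _
    · exact u1_opp C q h hc.symm h2 h1 (fun v hv => ⟨(hsup v hv).1, (hsup v hv).2.symm⟩) hI2 hI1 hq2
    · rw [h1, h2] at ht; exact absurd rfl ht

/-- U1. -/
theorem U1 (C : Conf n K b) (q : Arc n K → ℝ)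
    (hcard : (univ.filter (fun v => q v ≠ 0)).card ≤ 5)
    (h : ∀ p : Par n K, ∑ v, q v * (C.basis p v : ℝ) = 0) :
    (∀ F : (Fin n ⊕ Fin n) → ℝ, ∑ v, q v * (if C.th v.2 then F v.1 else 0) = 0) ∨
      ∃ e ∈ C.ties, ∃ c : ℝ, c ≠ 0 ∧ ∀ v, q v = c * (dco e v : ℝ) := by
  classical
  by_cases hz : ∀ v, q v = 0
  · left
    intro F
    apply Finset.sum_eq_zero
    intro v _
    rw [hz v, zero_mul]
  push Not at hz
  obtain ⟨⟨g1, c1⟩, hq⟩ := hz
  obtain ⟨S, hS⟩ : ∃ S : Finset (Arc n K), ∀ v, v ∈ S ↔ q v ≠ 0 :=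
    ⟨univ.filter (fun v => q v ≠ 0), fun v => by simp⟩
  have hScard : S.card ≤ 5 := by
    refine le_trans (Finset.card_le_card ?_) hcard
    intro v hv
    rw [Finset.mem_filter]
    exact ⟨Finset.mem_univ _, (hS v).mp hv⟩
  have hrows : (S.image Prod.fst).card ≤ 2 := by
    have h1 := Finset.mul_card_image_le_card (f := Prod.fst) S 2 (by
      intro g hg
      rw [Finset.mem_image] at hg
      obtain ⟨⟨g', c⟩, hv, rfl⟩ := hg
      obtain ⟨c', hc', hq'⟩ := u1_row C q h g' c ((hS _).mp hv)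
      have h2 : ({(g', c), (g', c')} : Finset (Arc n K)) ⊆ S.filter (fun x => x.1 = g') := by
        intro v hv'
        rw [Finset.mem_insert, Finset.mem_singleton] at hv'
        rw [Finset.mem_filter]
        rcases hv' with rfl | rfl
        · exact ⟨hv, rfl⟩
        · exact ⟨(hS _).mpr hq', rfl⟩
      have h3 := Finset.card_le_card h2
      rwa [Finset.card_pair (by simp [hc'.symm])] at h3)
    omega
  have hcols : (S.image Prod.snd).card ≤ 2 := by
    have h1 := Finset.mul_card_image_le_card (f := Prod.snd) S 2 (by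
      intro c hc
      rw [Finset.mem_image] at hc
      obtain ⟨⟨g, c'⟩, hv, rfl⟩ := hc
      obtain ⟨g', hg', -, hq'⟩ := u1_col C q h g c' ((hS _).mp hv)
      have h2 : ({(g, c'), (g', c')} : Finset (Arc n K)) ⊆ S.filter (fun x => x.2 = c') := by
        intro v hv'
        rw [Finset.mem_insert, Finset.mem_singleton] at hv'
        rw [Finset.mem_filter]
        rcases hv' with rfl | rfl
        · exact ⟨hv, rfl⟩
        · exact ⟨(hS _).mpr hq', rfl⟩
      have h3 := Finset.card_le_card h2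
      rwa [Finset.card_pair (by simp [hg'.symm])] at h3)
    omega
  obtain ⟨c2, hc21, hq2⟩ := u1_row C q h g1 c1 hq
  obtain ⟨g2, hg21, hI21, hq3⟩ := u1_col C q h g1 c1 hq
  have hmemR : ∀ g, g ∈ S.image Prod.fst → g = g1 ∨ g = g2 := by
    intro g hg
    by_contra hcon
    push Not at hcon
    have h2 : ({g, g1, g2} : Finset (Fin n ⊕ Fin n)) ⊆ S.image Prod.fst := by
      intro x hx
      rw [Finset.mem_insert, Finset.mem_insert, Finset.mem_singleton] at hx
      rcases hx with rfl | rfl | rfl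
      · exact hg
      · exact Finset.mem_image.mpr ⟨_, (hS _).mpr hq, rfl⟩
      · exact Finset.mem_image.mpr ⟨_, (hS _).mpr hq3, rfl⟩
    have h3 := Finset.card_le_card h2
    rw [Finset.card_eq_three.mpr ⟨g, g1, g2, hcon.1, hcon.2, hg21.symm, rfl⟩] at h3
    omega
  have hmemC : ∀ c, c ∈ S.image Prod.snd → c = c1 ∨ c = c2 := by
    intro c hc
    by_contra hcon
    push Not at hcon
    have h2 : ({c, c1, c2} : Finset (Fin K)) ⊆ S.image Prod.snd := by
      intro x hx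
      rw [Finset.mem_insert, Finset.mem_insert, Finset.mem_singleton] at hx
      rcases hx with rfl | rfl | rfl
      · exact hc
      · exact Finset.mem_image.mpr ⟨_, (hS _).mpr hq, rfl⟩
      · exact Finset.mem_image.mpr ⟨_, (hS _).mpr hq2, rfl⟩
    have h3 := Finset.card_le_card h2
    rw [Finset.card_eq_three.mpr ⟨c, c1, c2, hcon.1, hcon.2, hc21.symm, rfl⟩] at h3
    omega
  have hsup : ∀ v, q v ≠ 0 → (v.1 = g1 ∨ v.1 = g2) ∧ (v.2 = c1 ∨ v.2 = c2) := by
    intro v hv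
    exact ⟨hmemR _ (Finset.mem_image.mpr ⟨v, (hS _).mpr hv, rfl⟩),
      hmemC _ (Finset.mem_image.mpr ⟨v, (hS _).mpr hv, rfl⟩)⟩
  have hI22 : C.ty c2 g2 = C.ty c2 g1 := by
    obtain ⟨g', hg', hI', hq'⟩ := u1_col C q h g1 c2 hq2
    rcases (hsup _ hq').1 with h1 | h1
    · exact absurd h1 hg'
    · simp only at h1
      rw [← h1]
      exact hI'
  have hq4 : q (g2, c2) ≠ 0 := by
    obtain ⟨c', hc', hq'⟩ := u1_row C q h g2 c1 hq3
    rcases (hsup _ hq').2 with h1 | h1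
    · exact absurd h1 hc'
    · simp only at h1
      rwa [h1] at hq'
  by_cases ht : C.th c1 = C.th c2
  · left
    intro F
    rw [u1_sum q hg21.symm hc21.symm hsup]
    obtain ⟨v1, v2, v3⟩ := u1_vals C q h hg21.symm hc21.symm hsup hI21
    rw [v1, v2, v3]
    simp only [ht]
    split_ifs <;> ring
  · right
    -- the sides
    cases g1 with
    | inl r =>
      cases g2 with
      | inl r' =>
        exfalso
        have h3 := u1_third C q h hg21.symm hc21.symm hsup hI21 hq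
        refine C.c1 _ _ c1 c2 hg21.symm rfl ht hI21.symm hI22.symm ?_
        rw [h3]
        show (1 * 1 : ℤ) * _ = _
        ring
      | inr s => exact u1_opp' C q h hc21.symm ht hsup hI21 hI22 hq hq2
    | inr s =>
      cases g2 with
      | inl r =>
        exact u1_opp' C q h hc21.symm ht (fun v hv => ⟨(hsup v hv).1.symm, (hsup v hv).2⟩) hI21.symm
          hI22.symm hq3 hq4
      | inr s' =>
        exfalso
        have h3 := u1_third C q h hg21.symm hc21.symm hsup hI21 hq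
        refine C.c1 _ _ c1 c2 hg21.symm rfl ht hI21.symm hI22.symm ?_
        rw [h3]
        show (-1 * -1 : ℤ) * _ = _
        ring

end Pool.Agent.H463R2.DU
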