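import Pool.Agent.H463R2.DU.Conf

set_option autoImplicit false

open Finset

namespace Pool.Agent.H463R2.DU

variable {n K : ℕ} {b : ℤ}

open Classical in
/-- the sum of the parameters of the type of the list `g` at the column `c` -/
noncomputable def u2S (C : Conf n K b) (y : Par n K → ℤ) (g : Fin n ⊕ Fin n) (c : Fin K) : ℤ :=
  ∑ h, if C.ty c g = C.ty c h then y (Sum.inr (Sum.inl (c, h))) else 0

theorem u2_sum (C : Conf n K b) (y : Par n K → ℤ) (g : Fin n ⊕ Fin n) (c : Fin K) :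
    ∑ p, y p * C.basis p (g, c) =
      y (Sum.inl g) + sg g * u2S C y g c + y (Sum.inr (Sum.inr ())) * C.m (g, c) := by
  classical
  have h1 : ∑ g', y (Sum.inl g') * C.basis (Sum.inl g') (g, c) = y (Sum.inl g) := by
    rw [Finset.sum_eq_single g]
    · simp [Conf.basis]
    · intro b _ hb
      simp [Conf.basis, Ne.symm hb]
    · intro h; exact absurd (Finset.mem_univ g) h
  have h2 : ∑ q : Fin K × (Fin n ⊕ Fin n),
      y (Sum.inr (Sum.inl q)) * C.basis (Sum.inr (Sum.inl q)) (g, c) = sg g * u2S C y g c := by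
    rw [Fintype.sum_prod_type, Finset.sum_eq_single c]
    · unfold u2S
      rw [Finset.mul_sum]
      refine Finset.sum_congr rfl fun h _ => ?_
      simp only [Conf.basis, true_and]
      split_ifs <;> ring
    · intro c' _ hc'
      refine Finset.sum_eq_zero fun h _ => ?_
      simp only [Conf.basis]
      rw [if_neg, mul_zero]
      rintro ⟨h3, _⟩
      exact hc' h3.symm
    · intro h; exact absurd (Finset.mem_univ _) h
  rw [Fintype.sum_sum_type, h1, Fintype.sum_sum_type, h2]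
  simp [Conf.basis]
  ring

theorem u2_x0 (C : Conf n K b) (A T : ℤ) (y : Par n K → ℤ) (g : Fin n ⊕ Fin n) (c : Fin K) :
    C.x0 A T y (g, c) = A + (T + y (Sum.inr (Sum.inr ()))) * C.m (g, c) + y (Sum.inl g) +
      sg g * u2S C y g c := by
  unfold Conf.x0
  rw [u2_sum]
  ring

theorem u2_bd (C : Conf n K b) (Y : ℤ) (y : Par n K → ℤ) (hy : ∀ p, 0 ≤ y p ∧ y p ≤ Y)
    (g : Fin n ⊕ Fin n) (c : Fin K) : 0 ≤ u2S C y g c ∧ u2S C y g c ≤ 2 * n * Y := by
  classical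
  unfold u2S
  constructor
  · refine Finset.sum_nonneg fun h _ => ?_
    split_ifs
    · exact (hy _).1
    · exact le_rfl
  · calc (∑ h, if C.ty c g = C.ty c h then y (Sum.inr (Sum.inl (c, h))) else 0)
        ≤ ∑ _h : Fin n ⊕ Fin n, Y := by
          refine Finset.sum_le_sum fun h _ => ?_
          split_ifs
          · exact (hy _).2
          · exact (hy (Sum.inl g)).1.trans (hy (Sum.inl g)).2
      _ = 2 * n * Y := by
          rw [Finset.sum_const, Finset.card_univ, Fintype.card_sum, Fintype.card_fin, nsmul_eq_mul]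
          push_cast
          ring

theorem u2_eq (C : Conf n K b) (y : Par n K → ℤ) (r s : Fin n) (c : Fin K)
    (h : C.ty c (Sum.inl r) = C.ty c (Sum.inr s)) :
    u2S C y (Sum.inl r) c = u2S C y (Sum.inr s) c := by
  unfold u2S
  rw [h]

theorem U2a (C : Conf n K b) (A T : ℤ) (y : Par n K → ℤ) (e : Quad n K) (he : C.Tie e) :
    C.x0 A T y (Sum.inl e.1.1, e.2.1) + C.x0 A T y (Sum.inr e.1.2, e.2.1)
      = C.x0 A T y (Sum.inl e.1.1, e.2.2) + C.x0 A T y (Sum.inr e.1.2, e.2.2) := by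
  obtain ⟨⟨r, s⟩, ⟨c, d⟩⟩ := e
  obtain ⟨_, _, h1, h2, h3⟩ := he
  simp only at h1 h2 h3 ⊢
  rw [u2_x0, u2_x0, u2_x0, u2_x0, u2_eq C y r s c h1, u2_eq C y r s d h2]
  simp only [sg]
  linear_combination (T + y (Sum.inr (Sum.inr ()))) * h3

theorem U2b (C : Conf n K b) (A T G Y : ℤ) (y : Par n K → ℤ)
    (hy : ∀ p, 0 ≤ y p ∧ y p ≤ Y) (hG : 0 ≤ G) (hT : G + 2 * n * Y ≤ T)
    (e : Quad n K) (he : C.Tie e) (c : Fin K) (hc1 : c ≠ e.2.1) (hc2 : c ≠ e.2.2) :
    C.x0 A T y (Sum.inl e.1.1, e.2.1) + C.x0 A T y (Sum.inr e.1.2, e.2.1) + G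
      ≤ C.x0 A T y (Sum.inl e.1.1, c) + C.x0 A T y (Sum.inr e.1.2, c) := by
  have h0 := C.c2 e.1.1 e.1.2 e.2.1 e.2.2 he c hc1 hc2
  obtain ⟨⟨r, s⟩, ⟨c1, d⟩⟩ := e
  obtain ⟨_, _, h1, h2, h3⟩ := he
  simp only at h0 h1 h2 h3 ⊢
  rw [u2_x0, u2_x0, u2_x0, u2_x0, u2_eq C y r s c1 h1]
  simp only [sg]
  have hS := u2_bd C Y y hy (Sum.inl r) c
  have hS' := u2_bd C Y y hy (Sum.inr s) c
  have hyT := hy (Sum.inr (Sum.inr ()))
  have hnY : 0 ≤ 2 * (n : ℤ) * Y := hS.1.trans hS.2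
  have hTT : 0 ≤ T + y (Sum.inr (Sum.inr ())) := by linarith [hyT.1]
  have key := mul_le_mul_of_nonneg_left h0 hTT
  linarith [hS.1, hS'.2, hyT.1, key]

theorem U2c (C : Conf n K b) (A T Y : ℤ) (y : Par n K → ℤ)
    (hy : ∀ p, 0 ≤ y p ∧ y p ≤ Y) (hT : 0 ≤ T) (v : Arc n K) :
    A - ((T + Y) * b + (2 * n + 1) * Y) ≤ C.x0 A T y v ∧
      C.x0 A T y v ≤ A + ((T + Y) * b + (2 * n + 1) * Y) := by
  obtain ⟨g, c⟩ := v
  rw [u2_x0]
  have hS := u2_bd C Y y hy g c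
  have hyT := hy (Sum.inr (Sum.inr ()))
  have hyg := hy (Sum.inl g)
  have hm := C.hm (g, c)
  have hb : 0 ≤ b := (abs_nonneg _).trans hm
  have h1 : |(T + y (Sum.inr (Sum.inr ()))) * C.m (g, c)| ≤ (T + Y) * b := by
    rw [abs_mul, abs_of_nonneg (by linarith [hyT.1] : (0 : ℤ) ≤ T + y (Sum.inr (Sum.inr ())))]
    exact mul_le_mul (by linarith [hyT.2]) hm (abs_nonneg _) (by linarith [hyT.1, hyT.2])
  have h2 : |sg g * u2S C y g c| ≤ 2 * n * Y := by
    rw [abs_mul]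
    have : |sg g| = 1 := by cases g <;> simp [sg]
    rw [this, one_mul, abs_of_nonneg hS.1]
    exact hS.2
  rw [abs_le] at h1 h2
  constructor <;> linarith [h1.1, h1.2, h2.1, h2.2, hyg.1, hyg.2]

end Pool.Agent.H463R2.DU
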