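import Pool.Agent.H463R2.DU.TreeL
import Pool.Agent.H463R2.DU.T3
import Pool.Agent.H463R2.DU.T5
import Pool.Agent.H463R2.DU.U1
import Pool.Agent.H463R2.DU.U2

set_option autoImplicit false

open Finset

namespace Pool.Agent.H463R2.DU

variable {n K : ℕ} {b : ℤ}

/-- The perturbation of the base point. -/
def zp (C : Conf n K b) (M : ℤ) (v : Arc n K) : ℤ := if C.th v.2 then -4 * M else 0

/-- The perturbation that flips the tie `e`. -/
def ze (C : Conf n K b) (M : ℤ) (e : Quad n K) (v : Arc n K) : ℤ :=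
  if C.th v.2 then (if v.1 = Sum.inl e.1.1 ∨ v.1 = Sum.inr e.1.2 then 2 * M else -4 * M) else 0

/-- The middle of the two perturbations. -/
def zm (C : Conf n K b) (M : ℤ) (e : Quad n K) (v : Arc n K) : ℤ :=
  if C.th v.2 then (if v.1 = Sum.inl e.1.1 ∨ v.1 = Sum.inr e.1.2 then -M else -4 * M) else 0

theorem zm_mid (C : Conf n K b) (M : ℤ) (e : Quad n K) (v : Arc n K) :
    2 * zm C M e v = zp C M v + ze C M e v := by
  unfold zm zp ze
  split_ifs <;> ring

theorem zp_abs (C : Conf n K b) (M : ℤ) (hM : 0 ≤ M) (v : Arc n K) : |zp C M v| ≤ 4 * M := by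
  unfold zp
  split_ifs <;> rw [abs_le] <;> constructor <;> linarith

theorem ze_abs (C : Conf n K b) (M : ℤ) (hM : 0 ≤ M) (e : Quad n K) (v : Arc n K) :
    |ze C M e v| ≤ 4 * M := by
  unfold ze
  split_ifs <;> rw [abs_le] <;> constructor <;> linarith

theorem zm_abs (C : Conf n K b) (M : ℤ) (hM : 0 ≤ M) (e : Quad n K) (v : Arc n K) :
    |zm C M e v| ≤ 4 * M := by
  unfold zm
  split_ifs <;> rw [abs_le] <;> constructor <;> linarith

theorem Conf.Tie.ne {C : Conf n K b} {e : Quad n K} (h : C.Tie e) : e.2.1 ≠ e.2.2 := by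
  intro he
  have h1 := h.1
  have h2 := h.2.1
  rw [he, h2] at h1
  exact absurd h1 (by simp)

/-- A tie is determined by its source and its sink. -/
theorem tie_unique (C : Conf n K b) (e e' : Quad n K) (he : C.Tie e) (he' : C.Tie e')
    (h : e.1 = e'.1) : e = e' := by
  obtain ⟨⟨r, s⟩, ⟨c, d⟩⟩ := e
  obtain ⟨⟨r', s'⟩, ⟨c', d'⟩⟩ := e'
  simp only [Prod.mk.injEq] at h
  obtain ⟨rfl, rfl⟩ := h
  have h1 := C.c2 r s c d he
  have h2 := C.c2 r s c' d' he'
  obtain ⟨a1, a2, _, _, a5⟩ := he
  obtain ⟨b1, b2, _, _, b5⟩ := he'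
  dsimp only at a1 a2 a5 b1 b2 b5
  have hcd' : c ≠ d' := fun h => by rw [h, b2] at a1; exact absurd a1 (by simp)
  have hc'd : c' ≠ d := fun h => by rw [h, a2] at b1; exact absurd b1 (by simp)
  have hcc : c' = c := by
    by_contra hne
    have := h1 c' hne hc'd
    have := h2 c (fun h => hne h.symm) hcd'
    linarith
  subst hcc
  have hdd : d' = d := by
    by_contra hne
    have := h1 d' (fun h => hcd' h.symm) hne
    linarith
  rw [hdd]

/-- The linear form of a quadruple. -/
theorem sum_dco (e : Quad n K) (h : e.2.1 ≠ e.2.2) (F : Arc n K → ℝ) :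
    ∑ v, (dco e v : ℝ) * F v = F (Sum.inl e.1.1, e.2.1) + F (Sum.inr e.1.2, e.2.1)
      - F (Sum.inl e.1.1, e.2.2) - F (Sum.inr e.1.2, e.2.2) := by
  obtain ⟨⟨r, s⟩, ⟨c, d⟩⟩ := e
  dsimp only at h ⊢
  have key : ∀ v : Arc n K, (dco ((r, s), (c, d)) v : ℝ) * F v =
      (if v = (Sum.inl r, c) then F v else 0) + (if v = (Sum.inr s, c) then F v else 0)
      - (if v = (Sum.inl r, d) then F v else 0) - (if v = (Sum.inr s, d) then F v else 0) := by
    intro v
    have hd : d ≠ c := fun h' => h h'.symm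
    unfold dco
    dsimp only
    by_cases h1 : v = (Sum.inl r, c)
    · subst h1; simp [h]
    · by_cases h2 : v = (Sum.inr s, c)
      · subst h2; simp [h]
      · by_cases h3 : v = (Sum.inl r, d)
        · subst h3; simp [hd]
        · by_cases h4 : v = (Sum.inr s, d)
          · subst h4; simp [hd]
          · simp [h1, h2, h3, h4]
  rw [Finset.sum_congr rfl fun v _ => key v, Finset.sum_sub_distrib, Finset.sum_sub_distrib,
    Finset.sum_add_distrib]
  simp

/-- The value of a linear form. -/
noncomputable def lin (w : Arc n K → ℝ) (x : Arc n K → ℤ) : ℝ := ∑ v, w v * (x v : ℝ)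

theorem lin_abs (w : Arc n K → ℝ) (z : Arc n K → ℤ) (R : ℤ) (hz : ∀ v, |z v| ≤ R) :
    |lin w z| ≤ R * ∑ v, |w v| := by
  unfold lin
  calc |∑ v, w v * (z v : ℝ)| ≤ ∑ v, |w v * (z v : ℝ)| := Finset.abs_sum_le_sum_abs _ _
    _ ≤ ∑ v, R * |w v| := by
        refine Finset.sum_le_sum fun v _ => ?_
        rw [abs_mul, mul_comm]
        refine mul_le_mul_of_nonneg_right ?_ (abs_nonneg _)
        have := hz v
        rw [← Int.cast_abs]
        exact_mod_cast this
    _ = _ := by rw [Finset.mul_sum]

/-- The admissible point `x0 + z`. -/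
def pt (x0 z : Arc n K → ℤ) (v : Arc n K) : ℕ := (x0 v + z v).toNat

theorem eval_pt (q : Aff (Arc n K)) (x0 z : Arc n K → ℤ) (h : ∀ v, 0 ≤ x0 v + z v) :
    q.eval (pt x0 z) = lin q.coef x0 + lin q.coef z + q.const := by
  unfold Aff.eval lin pt
  rw [← Finset.sum_add_distrib]
  congr 1
  refine Finset.sum_congr rfl fun v _ => ?_
  have : (((x0 v + z v).toNat : ℕ) : ℝ) = ((x0 v + z v : ℤ) : ℝ) := by
    have := Int.toNat_of_nonneg (h v)
    exact_mod_cast this
  rw [this]
  push_cast
  ring

theorem lin_dco (e : Quad n K) (h : e.2.1 ≠ e.2.2) (c : ℝ) (w : Arc n K → ℝ)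
    (hw : ∀ v, w v = c * (dco e v : ℝ)) (z : Arc n K → ℤ) :
    lin w z = c * ((z (Sum.inl e.1.1, e.2.1) + z (Sum.inr e.1.2, e.2.1)
      - z (Sum.inl e.1.1, e.2.2) - z (Sum.inr e.1.2, e.2.2) : ℤ) : ℝ) := by
  have := sum_dco e h (fun v => (z v : ℝ))
  push_cast
  rw [← this, Finset.mul_sum]
  unfold lin
  refine Finset.sum_congr rfl fun v _ => ?_
  rw [hw v]; ring

/-- Good tests at the base point `x0`, scale `M`. -/
def Good (C : Conf n K b) (x0 : Arc n K → ℤ) (M : ℕ) (q : Aff (Arc n K)) : Prop :=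
  (∀ F : (Fin n ⊕ Fin n) → ℝ, ∑ v, q.coef v * (if C.th v.2 then F v.1 else 0) = 0) ∨
  (∃ e ∈ C.ties, ∃ c : ℝ, c ≠ 0 ∧ (∀ v, q.coef v = c * (dco e v : ℝ)) ∧ |q.const| < 2 * M * |c|) ∨
  (|q.const| + 4 * M * ∑ v, |q.coef v| < |lin q.coef x0|)

theorem sameSign_of_close {a b m : ℝ} (h1 : |a - m| < |m|) (h2 : |b - m| < |m|) :
    SameSign a b := by
  rcases lt_trichotomy m 0 with hm | hm | hm
  · rw [abs_of_neg hm] at h1 h2
    have ha : a < 0 := by linarith [(abs_lt.1 h1).2]
    have hb : b < 0 := by linarith [(abs_lt.1 h2).2]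
    exact ⟨⟨fun _ => hb, fun _ => ha⟩, ⟨fun h => by linarith, fun h => by linarith⟩⟩
  · subst hm
    simp only [abs_zero] at h1
    exact absurd h1 (not_lt.2 (abs_nonneg _))
  · rw [abs_of_pos hm] at h1 h2
    have ha : 0 < a := by linarith [(abs_lt.1 h1).1]
    have hb : 0 < b := by linarith [(abs_lt.1 h2).1]
    exact ⟨⟨fun h => by linarith, fun h => by linarith⟩,
      ⟨fun h => by linarith, fun h => by linarith⟩⟩

theorem sameSign_refl (a : ℝ) : SameSign a a := ⟨Iff.rfl, Iff.rfl⟩

open Classical in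
theorem good_card (C : Conf n K b) (x0 : Arc n K → ℤ) (M : ℕ) (hM : 0 < M)
    (h0 : ∀ v, 0 ≤ x0 v + zp C M v) (h1 : ∀ e v, 0 ≤ x0 v + ze C M e v)
    (htie : ∀ e, C.Tie e → x0 (Sum.inl e.1.1, e.2.1) + x0 (Sum.inr e.1.2, e.2.1)
      = x0 (Sum.inl e.1.1, e.2.2) + x0 (Sum.inr e.1.2, e.2.2))
    (q : Aff (Arc n K)) (hq : Good C x0 M q) :
    (C.ties.filter fun e => ¬ SameSign (q.eval (pt x0 (zp C M)))
      (q.eval (pt x0 (ze C M e)))).card ≤ 1 := by
  rcases hq with hq | ⟨e0, he0, c, hc, hq, hk⟩ | hq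
  · have hz1 : lin q.coef (zp C M) = 0 := by
      have := hq (fun _ => (-4 * M : ℝ))
      rw [← this]
      unfold lin zp
      refine Finset.sum_congr rfl fun v _ => ?_
      split_ifs <;> push_cast <;> ring
    have hz2 : ∀ e : Quad n K, lin q.coef (ze C M e) = 0 := by
      intro e
      have := hq (fun g => if g = Sum.inl e.1.1 ∨ g = Sum.inr e.1.2 then (2 * M : ℝ) else -4 * M)
      rw [← this]
      unfold lin ze
      refine Finset.sum_congr rfl fun v _ => ?_
      split_ifs <;> push_cast <;> ring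
    have : (C.ties.filter fun e => ¬ SameSign (q.eval (pt x0 (zp C M)))
        (q.eval (pt x0 (ze C M e)))) = ∅ := by
      rw [Finset.filter_eq_empty_iff]
      intro e _
      rw [not_not, eval_pt q x0 _ h0, eval_pt q x0 _ (h1 e), hz1, hz2]
      exact sameSign_refl _
    rw [this]; simp
  · have ht0 : C.Tie e0 := by
      unfold Conf.ties at he0; exact (mem_filter.1 he0).2
    have hne : e0.2.1 ≠ e0.2.2 := ht0.ne
    have hthc : C.th e0.2.1 = false := ht0.1
    have hthd : C.th e0.2.2 = true := ht0.2.1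
    have hx : lin q.coef x0 = 0 := by
      rw [lin_dco e0 hne c q.coef hq x0]
      have := htie e0 ht0
      have : x0 (Sum.inl e0.1.1, e0.2.1) + x0 (Sum.inr e0.1.2, e0.2.1)
        - x0 (Sum.inl e0.1.1, e0.2.2) - x0 (Sum.inr e0.1.2, e0.2.2) = 0 := by linarith
      rw [this]; simp
    have hsub : (C.ties.filter fun e => ¬ SameSign (q.eval (pt x0 (zp C M)))
        (q.eval (pt x0 (ze C M e)))) ⊆ {e0} := by
      intro e he
      rw [mem_singleton]
      by_contra hee
      obtain ⟨he1, he2⟩ := mem_filter.1 he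
      apply he2
      have ht : C.Tie e := by unfold Conf.ties at he1; exact (mem_filter.1 he1).2
      rw [eval_pt q x0 _ h0, eval_pt q x0 _ (h1 e), hx]
      rw [lin_dco e0 hne c q.coef hq, lin_dco e0 hne c q.coef hq]
      have hMr : (0 : ℝ) < M := by exact_mod_cast hM
      -- the two values are `c * a + const` with `a ≥ 2M`
      have hval : ∀ a : ℝ, 2 * M ≤ a → |(0 + c * a + q.const) - c * a| < |c * a| := by
        intro a ha
        have : (0 + c * a + q.const) - c * a = q.const := by ring
        rw [this, abs_mul, abs_of_pos (show 0 < a by nlinarith)]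
        calc |q.const| < 2 * M * |c| := hk
          _ ≤ |c| * a := by nlinarith [abs_nonneg c]
      have hsg : ∀ a b : ℝ, 2 * M ≤ a → 2 * M ≤ b →
          SameSign (0 + c * a + q.const) (0 + c * b + q.const) := by
        intro a b ha hb
        have ha' := hval a ha
        have hb' := hval b hb
        have hapos : 0 < a := by nlinarith
        have hbpos : 0 < b := by nlinarith
        rcases lt_or_gt_of_ne hc with hc' | hc'
        · have e1 : c * a < 0 := mul_neg_of_neg_of_pos hc' hapos
          have e2 : c * b < 0 := mul_neg_of_neg_of_pos hc' hbpos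
          rw [abs_of_neg e1] at ha'
          rw [abs_of_neg e2] at hb'
          have a1 := (abs_lt.1 ha').2
          have b1 := (abs_lt.1 hb').2
          exact ⟨⟨fun _ => by linarith, fun _ => by linarith⟩,
            ⟨fun h => by linarith, fun h => by linarith⟩⟩
        · have e1 : 0 < c * a := mul_pos hc' hapos
          have e2 : 0 < c * b := mul_pos hc' hbpos
          rw [abs_of_pos e1] at ha'
          rw [abs_of_pos e2] at hb'
          have a1 := (abs_lt.1 ha').1
          have b1 := (abs_lt.1 hb').1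
          exact ⟨⟨fun h => by linarith, fun h => by linarith⟩,
            ⟨fun h => by linarith, fun h => by linarith⟩⟩
      apply hsg
      · unfold zp
        simp only [hthc, hthd, if_true, Bool.false_eq_true, if_false]
        push_cast
        linarith
      · have hnot : ¬ (e0.1.1 = e.1.1 ∧ e0.1.2 = e.1.2) := by
          rintro ⟨h2, h3⟩
          exact hee (tie_unique C e e0 ht ht0 (Prod.ext h2.symm h3.symm))
        unfold ze
        simp only [hthc, hthd, if_true, Bool.false_eq_true, if_false]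
        simp only [Sum.inl.injEq, reduceCtorEq, or_false, Sum.inr.injEq, false_or]
        by_cases h2 : e0.1.1 = e.1.1
        · have h3 : ¬ (e0.1.2 = e.1.2) := fun h => hnot ⟨h2, h⟩
          simp only [h2, h3, if_true, if_false]
          push_cast
          linarith
        · by_cases h3 : e0.1.2 = e.1.2
          · simp only [h2, h3, if_true, if_false]
            push_cast
            linarith
          · simp only [h2, h3, if_false]
            push_cast
            linarith
    calc _ ≤ ({e0} : Finset (Quad n K)).card := card_le_card hsub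
      _ = 1 := card_singleton _
  · have hMz : (0 : ℤ) ≤ (M : ℤ) := by positivity
    have : (C.ties.filter fun e => ¬ SameSign (q.eval (pt x0 (zp C M)))
        (q.eval (pt x0 (ze C M e)))) = ∅ := by
      rw [Finset.filter_eq_empty_iff]
      intro e _
      rw [not_not, eval_pt q x0 _ h0, eval_pt q x0 _ (h1 e)]
      have hb : ∀ z : Arc n K → ℤ, (∀ v, |z v| ≤ 4 * (M : ℤ)) →
          |(lin q.coef x0 + lin q.coef z + q.const) - lin q.coef x0| < |lin q.coef x0| := by
        intro z hz
        have h2 := lin_abs q.coef z _ hz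
        push_cast at h2
        calc |(lin q.coef x0 + lin q.coef z + q.const) - lin q.coef x0|
            = |lin q.coef z + q.const| := by congr 1; ring
          _ ≤ |lin q.coef z| + |q.const| := abs_add_le _ _
          _ ≤ 4 * M * ∑ v, |q.coef v| + |q.const| := by linarith
          _ < _ := by linarith
      exact sameSign_of_close (hb _ (zp_abs C _ hMz)) (hb _ (ze_abs C _ hMz e))
    rw [this]; simp

end Pool.Agent.H463R2.DU
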