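import Pool.Agent.H463R2.DU.Conf

set_option autoImplicit false

open Finset

namespace Pool.Agent.H463R2.DU

variable {n K : ℕ} {b : ℤ}

/-! U1: classification of the forms with at most 5 variables that vanish on all parameters. -/
theorem U1 (C : Conf n K b) (q : Arc n K → ℝ)
    (hcard : (univ.filter (fun v => q v ≠ 0)).card ≤ 5)
    (h : ∀ p : Par n K, ∑ v, q v * (C.basis p v : ℝ) = 0) :
    (∀ F : (Fin n ⊕ Fin n) → ℝ, ∑ v, q v * (if C.th v.2 then F v.1 else 0) = 0) ∨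
      ∃ e ∈ C.ties, ∃ c : ℝ, c ≠ 0 ∧ ∀ v, q v = c * (dco e v : ℝ) := by
  sorry

/-! U2: ties and gaps at the base point. -/
theorem U2a (C : Conf n K b) (A T : ℤ) (y : Par n K → ℤ) (e : Quad n K) (he : C.Tie e) :
    C.x0 A T y (Sum.inl e.1.1, e.2.1) + C.x0 A T y (Sum.inr e.1.2, e.2.1)
      = C.x0 A T y (Sum.inl e.1.1, e.2.2) + C.x0 A T y (Sum.inr e.1.2, e.2.2) := by
  sorry

theorem U2b (C : Conf n K b) (A T G Y : ℤ) (y : Par n K → ℤ)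
    (hy : ∀ p, 0 ≤ y p ∧ y p ≤ Y) (hG : 0 ≤ G) (hT : G + 2 * n * Y ≤ T)
    (e : Quad n K) (he : C.Tie e) (c : Fin K) (hc1 : c ≠ e.2.1) (hc2 : c ≠ e.2.2) :
    C.x0 A T y (Sum.inl e.1.1, e.2.1) + C.x0 A T y (Sum.inr e.1.2, e.2.1) + G
      ≤ C.x0 A T y (Sum.inl e.1.1, c) + C.x0 A T y (Sum.inr e.1.2, c) := by
  sorry

theorem U2c (C : Conf n K b) (A T Y : ℤ) (y : Par n K → ℤ)
    (hy : ∀ p, 0 ≤ y p ∧ y p ≤ Y) (hT : 0 ≤ T) (v : Arc n K) :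
    A - ((T + Y) * b + (2 * n + 1) * Y) ≤ C.x0 A T y v ∧
      C.x0 A T y v ≤ A + ((T + Y) * b + (2 * n + 1) * Y) := by
  sorry

/-! U6: a configuration with many ties; only the first `K'` middle vertices are used. -/
theorem U6 (d R K' : ℕ) (hd : 1 ≤ d) (hR : 1 ≤ R) (hK' : 2 * R ^ d ≤ K') (hKK : K' ≤ K)
    (hn : 8 * d * 4 ^ d * K' * R ^ (d + 2) ≤ n) :
    ∃ C : Conf n K ((n : ℤ) ^ 6), n * K' * R ^ d ≤ 4 ^ (d + 2) * C.ties.card := by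
  sorry

/-! U7: choice of `d`, `R`, `K'` for a given exponent. -/
theorem U7 (ε : ℝ) (hε : 0 < ε) : ∃ d : ℕ, 1 ≤ d ∧ ∃ c : ℝ, 0 < c ∧ ∃ n0 : ℕ, ∀ n K : ℕ,
    n0 ≤ n → 2 ≤ K → K ≤ n → ∃ R K' : ℕ, 1 ≤ R ∧ 2 * R ^ d ≤ K' ∧ K' ≤ K ∧
      8 * d * 4 ^ d * K' * R ^ (d + 2) ≤ n ∧
      c * ((n : ℝ) * K * (min (K : ℝ) ((n : ℝ) / K)) ^ (1 - ε))
        ≤ ((n * K' * R ^ d : ℕ) : ℝ) / 4 ^ (d + 2) := by
  sorry

end Pool.Agent.H463R2.DU
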