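import Pool.Agent.H463R2.DU.Model

set_option autoImplicit false

open Finset

namespace Pool.Agent.H463R2.DU

/-- Two reals have the same sign. -/
def SameSign (a b : ℝ) : Prop := (a < 0 ↔ b < 0) ∧ (a = 0 ↔ b = 0)

theorem SameSign.mid {a b m : ℝ} (h : SameSign a b) (hm : 2 * m = a + b) : SameSign a m := by
  obtain ⟨h1, h2⟩ := h
  rcases lt_trichotomy a 0 with ha | ha | ha
  · have hb := h1.1 ha
    exact ⟨⟨fun _ => by linarith, fun _ => ha⟩, ⟨fun h => by linarith, fun h => by linarith⟩⟩
  · have hb := h2.1 ha
    exact ⟨⟨fun h => by linarith, fun h => by linarith⟩, ⟨fun _ => by linarith, fun _ => ha⟩⟩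
  · have hb : 0 < b := by
      rcases lt_trichotomy b 0 with hb | hb | hb
      · have := h1.2 hb; linarith
      · have := h2.2 hb; linarith
      · exact hb
    exact ⟨⟨fun h => by linarith, fun h => by linarith⟩, ⟨fun h => by linarith, fun h => by linarith⟩⟩

variable {ι O : Type} [Fintype ι]

/-- The inputs `x` and `y` follow the same path. -/
noncomputable def Tree.same : Tree ι O → (ι → ℕ) → (ι → ℕ) → Prop
  | .leaf _, _, _ => True
  | .node q l e g, x, y => SameSign (q.eval x) (q.eval y) ∧
      (if q.eval x < 0 then l.same x y else if q.eval x = 0 then e.same x y else g.same x y)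

theorem Tree.run_eq (T : Tree ι O) (x y : ι → ℕ) (h : T.same x y) : T.run x = T.run y := by
  induction T with
  | leaf o => rfl
  | node q l e g hl he hg =>
    obtain ⟨⟨h1, h2⟩, h3⟩ := h
    simp only [Tree.run]
    by_cases ha : q.eval x < 0
    · rw [if_pos ha] at h3 ⊢
      rw [if_pos (h1.1 ha)]
      exact hl h3
    · rw [if_neg ha] at h3 ⊢
      rw [if_neg (fun hb => ha (h1.2 hb))]
      by_cases hb : q.eval x = 0
      · rw [if_pos hb] at h3 ⊢
        rw [if_pos (h2.1 hb)]
        exact he h3
      · rw [if_neg hb] at h3 ⊢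
        rw [if_neg (fun hc => hb (h2.2 hc))]
        exact hg h3

theorem Aff.eval_mid (q : Aff ι) (x y m : ι → ℕ) (hm : ∀ i, 2 * m i = x i + y i) :
    2 * q.eval m = q.eval x + q.eval y := by
  have h : ∀ i, 2 * (m i : ℝ) = x i + y i := fun i => by exact_mod_cast hm i
  unfold Aff.eval
  rw [mul_add, Finset.mul_sum]
  have : ∑ i, 2 * (q.coef i * (m i : ℝ)) = ∑ i, q.coef i * (x i : ℝ) + ∑ i, q.coef i * (y i : ℝ) := by
    rw [← Finset.sum_add_distrib]
    refine Finset.sum_congr rfl fun i _ => ?_
    rw [← mul_add, ← h i]; ring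
  rw [this]; ring

theorem Tree.same_mid (T : Tree ι O) (x y m : ι → ℕ) (hm : ∀ i, 2 * m i = x i + y i)
    (h : T.same x y) : T.same x m := by
  induction T with
  | leaf o => trivial
  | node q l e g hl he hg =>
    obtain ⟨h1, h3⟩ := h
    refine ⟨h1.mid (q.eval_mid x y m hm), ?_⟩
    split_ifs at h3 ⊢
    · exact hl h3
    · exact he h3
    · exact hg h3

open Classical in
theorem Tree.count {E : Type} (S : Finset E) (xp : ι → ℕ) (xe : E → ι → ℕ) (P : Aff ι → Prop)
    (hP : ∀ q, P q → (S.filter fun e => ¬ SameSign (q.eval xp) (q.eval (xe e))).card ≤ 1)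
    (T : Tree ι O) (hT : T.All P) :
    (S.filter fun e => ¬ T.same xp (xe e)).card ≤ T.cost xp := by
  induction T with
  | leaf o => simp [Tree.same]
  | node q l e g hl he hg =>
    obtain ⟨hq, h1, h2, h3⟩ := hT
    have key : ∀ t : Tree ι O, (∀ a, (Tree.node q l e g).same xp a ↔
        SameSign (q.eval xp) (q.eval a) ∧ t.same xp a) →
        (S.filter fun e => ¬ t.same xp (xe e)).card ≤ t.cost xp →
        (S.filter fun a => ¬ (Tree.node q l e g).same xp (xe a)).card ≤ 1 + t.cost xp := by
      intro t ht hc
      have hsub : (S.filter fun a => ¬ (Tree.node q l e g).same xp (xe a)) ⊆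
          (S.filter fun e => ¬ SameSign (q.eval xp) (q.eval (xe e))) ∪
            (S.filter fun e => ¬ t.same xp (xe e)) := by
        intro a ha
        simp only [mem_filter, mem_union, ht] at ha ⊢
        tauto
      exact (card_le_card hsub).trans ((card_union_le _ _).trans (add_le_add (hP q hq) hc))
    simp only [Tree.cost]
    by_cases ha : q.eval xp < 0
    · rw [if_pos ha]
      exact key l (fun a => by simp only [Tree.same]; rw [if_pos ha]) (hl h1)
    · rw [if_neg ha]
      by_cases hb : q.eval xp = 0
      · rw [if_pos hb]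
        exact key e (fun a => by simp only [Tree.same]; rw [if_neg ha, if_pos hb]) (he h2)
      · rw [if_neg hb]
        exact key g (fun a => by simp only [Tree.same]; rw [if_neg ha, if_neg hb]) (hg h3)

open Classical in
/-- Averaging over a finite probability space. -/
theorem expected {E Ω : Type} [Fintype Ω] (S : Finset E) (p : Ω → ℝ) (hp : ∀ w, 0 ≤ p w)
    (hp1 : ∑ w, p w = 1) (cost : Ω → ℕ) (same : Ω → E → Prop) (err : Ω → Prop)
    (erre errm : Ω → E → Prop) (δ : ℝ)
    (hcost : ∀ w, (S.filter fun e => ¬ same w e).card ≤ cost w)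
    (h3 : ∀ w, ∀ e ∈ S, same w e → err w ∨ erre w e ∨ errm w e)
    (h0 : ∑ w ∈ univ.filter err, p w ≤ δ)
    (h1 : ∀ e ∈ S, ∑ w ∈ univ.filter (fun w => erre w e), p w ≤ δ)
    (h2 : ∀ e ∈ S, ∑ w ∈ univ.filter (fun w => errm w e), p w ≤ δ) :
    (1 - 3 * δ) * S.card ≤ ∑ w, p w * cost w := by
  have step : ∀ e ∈ S, 1 - 3 * δ ≤ ∑ w, p w * (if same w e then 0 else 1) := by
    intro e he
    have h4 : ∀ w, p w * (if same w e then (0 : ℝ) else 1) ≥ p w - (if err w then p w else 0) -
        (if erre w e then p w else 0) - (if errm w e then p w else 0) := by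
      intro w
      have := hp w
      have h5 := h3 w e he
      by_cases hs : same w e
      · rw [if_pos hs]
        rcases h5 hs with h | h | h <;> rw [if_pos h] <;> split_ifs <;> linarith
      · rw [if_neg hs]
        split_ifs <;> linarith
    calc 1 - 3 * δ ≤ ∑ w, (p w - (if err w then p w else 0) -
        (if erre w e then p w else 0) - (if errm w e then p w else 0)) := by
          rw [Finset.sum_sub_distrib, Finset.sum_sub_distrib, Finset.sum_sub_distrib, hp1,
            ← Finset.sum_filter, ← Finset.sum_filter, ← Finset.sum_filter]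
          have := h1 e he
          have := h2 e he
          linarith
      _ ≤ _ := Finset.sum_le_sum fun w _ => h4 w
  calc (1 - 3 * δ) * S.card = ∑ e ∈ S, (1 - 3 * δ) := by
        rw [Finset.sum_const, nsmul_eq_mul]; ring
    _ ≤ ∑ e ∈ S, ∑ w, p w * (if same w e then 0 else 1) := Finset.sum_le_sum step
    _ = ∑ w, p w * ∑ e ∈ S, (if same w e then (0 : ℝ) else 1) := by
        rw [Finset.sum_comm]
        refine Finset.sum_congr rfl fun w _ => ?_
        rw [Finset.mul_sum]
    _ ≤ ∑ w, p w * cost w := by
        refine Finset.sum_le_sum fun w _ => mul_le_mul_of_nonneg_left ?_ (hp w)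
        have : ∑ e ∈ S, (if same w e then (0 : ℝ) else 1) = ((S.filter fun e => ¬ same w e).card : ℝ) := by
          rw [Finset.card_filter]
          push_cast
          refine Finset.sum_congr rfl fun e _ => ?_
          split_ifs <;> simp_all
        rw [this]
        exact_mod_cast hcost w

end Pool.Agent.H463R2.DU
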